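import Mathlib

set_option autoImplicit false

/-! # Project LG (helper799): moments of zeta and local geometric means; statements -/

namespace Pool.Agent.N799.LG

open Filter Topology Set MeasureTheory

/-- `log |ζ(1/2 + x + iv)|` (with value 0 at the zeros) -/
noncomputable def L (x v : ℝ) : ℝ := Real.log ‖riemannZeta ⟨1 / 2 + x, v⟩‖

/-- the local (Poisson) mean of `log |ζ(1/2 + iu)|` at height `t` and scale `a` -/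
noncomputable def GG (a t : ℝ) : ℝ := a / Real.pi * ∫ u : ℝ, L 0 u / (a ^ 2 + (u - t) ^ 2)

/-- the hyperbolic kernel of the strip of half-width `a`, a probability density -/
noncomputable def KK (a u : ℝ) : ℝ := 1 / (2 * a * Real.cosh (Real.pi * u / (2 * a)))

/-- FE: the functional equation as an upper bound, uniform near the critical line -/
def S_FE : Prop := ∃ C : ℝ, 1 ≤ C ∧ ∀ a v : ℝ, 0 ≤ a → a ≤ 1 / 4 →
  ‖riemannZeta ⟨1 / 2 - a, v⟩‖ ≤ C * (2 + |v|) ^ a * ‖riemannZeta ⟨1 / 2 + a, v⟩‖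

/-- KER: the kernel -/
def S_KER : Prop := ∀ a : ℝ, 0 < a → a ≤ 1 / 4 → Continuous (KK a) ∧ Integrable (KK a) ∧
  ∫ u : ℝ, KK a u = 1 ∧ (∀ u, 0 < KK a u) ∧ (∀ u, KK a (-u) = KK a u) ∧
  (∀ u, 1 ≤ |u| → KK a u ≤ 4 * Real.exp (-2 * Real.pi * |u|)) ∧
  Integrable (fun u => KK a u * Real.log (1 + |u|)) ∧ ∫ u : ℝ, KK a u * Real.log (1 + |u|) ≤ 1

/-- CEN: the value at the centre of the strip -/
def S_CEN : Prop := ∃ C : ℝ, 0 < C ∧ ∀ a : ℝ, 0 < a → a ≤ 1 / 4 → ∀ t : ℝ,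
  riemannZeta ⟨1 / 2, t⟩ ≠ 0 → Integrable (fun u : ℝ => L a (t + u) * KK a u) ∧
  L 0 t ≤ C + a / 2 * Real.log (2 + |t|) + ∫ u : ℝ, L a (t + u) * KK a u

/-- MAJ: the Poisson majorant to the right of the critical line -/
def S_MAJ : Prop := ∃ C : ℝ, 0 < C ∧ ∀ a : ℝ, 0 < a → a ≤ 1 / 4 → ∀ t : ℝ,
  Integrable (fun u : ℝ => L 0 u / (a ^ 2 + (u - t) ^ 2)) ∧
  (riemannZeta ⟨1 / 2 + a, t⟩ ≠ 0 → L a t ≤ C + GG a t)

/-- PB: a polynomial bound -/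
def S_PB : Prop := ∃ C : ℝ, 0 < C ∧ ∀ v : ℝ, ‖riemannZeta ⟨1 / 2, v⟩‖ ≤ C * (1 + |v|)

/-- UP: the means are measurable, even, and at most a constant times the logarithm -/
def S_UP : Prop := (∀ a t : ℝ, GG a (-t) = GG a t) ∧ (∀ a : ℝ, Measurable (GG a)) ∧
  ∃ C : ℝ, 0 < C ∧ ∀ a : ℝ, 0 < a → a ≤ 1 / 4 → ∀ t : ℝ, GG a t ≤ C * (1 + Real.log (1 + |t|))

/-- PT: the pointwise bound -/
def S_PT : Prop := ∃ C : ℝ, 0 < C ∧ ∀ a : ℝ, 0 < a → a ≤ 1 / 4 → ∀ t : ℝ,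
  Integrable (fun u : ℝ => max (GG a (t + u)) 0 * KK a u) ∧
  L 0 t ≤ C + a / 2 * Real.log (2 + |t|) + ∫ u : ℝ, max (GG a (t + u)) 0 * KK a u

/-- M1: the moments of zeta are bounded by the moments of the geometric means -/
def S_M1 : Prop := ∀ k : ℝ, 0 < k → ∃ C : ℝ, 0 < C ∧ ∀ a T : ℝ, 0 < a → a ≤ 1 / 4 → 1 ≤ T →
  ∫ t in (0 : ℝ)..T, ‖riemannZeta ⟨1 / 2, t⟩‖ ^ (2 * k) ≤
    C * T ^ (k * a) * (T + ∫ t in (0 : ℝ)..(2 * T), Real.exp (2 * k * GG a t))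

/-- TP: the means are almost local -/
def S_TP : Prop := ∃ A C : ℝ, 0 < A ∧ 0 < C ∧ ∀ a : ℝ, 0 < a → a ≤ 1 / 4 → ∀ t : ℝ,
  GG a t ≤ A * a * Real.log (2 + |t|) + C +
    ∫ u in (-1 : ℝ)..1, max (L 0 (t + u)) 0 * (a / Real.pi / (a ^ 2 + u ^ 2))

/-- M2: the moments of the geometric means are bounded by the moments of zeta -/
def S_M2 : Prop := ∃ A : ℝ, 0 < A ∧ ∀ k : ℝ, 0 < k → ∃ C : ℝ, 0 < C ∧ ∀ a T : ℝ,
  0 < a → a ≤ 1 / 4 → 1 ≤ T →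
  ∫ t in (0 : ℝ)..T, Real.exp (2 * k * GG a t) ≤
    C * T ^ (A * k * a) * (T + ∫ t in (0 : ℝ)..(2 * T), ‖riemannZeta ⟨1 / 2, t⟩‖ ^ (2 * k))

end Pool.Agent.N799.LG
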