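import Pool.Agent.N799.LG.Def

set_option autoImplicit false

/-! # Project LG: assembly -/

namespace Pool.Agent.N799.LG

open Filter Topology Set MeasureTheory

/-- the Poisson mean, at scale `a`, of `log |ζ(1/2 + iu)|` around the height `t` -/
noncomputable def G (a t : ℝ) : ℝ :=
  a / Real.pi * ∫ u : ℝ,
    Real.log ‖riemannZeta (1 / 2 + u * Complex.I)‖ / (a ^ 2 + (u - t) ^ 2)

/-- the `2k`-th moment `∫_0^T |ζ(1/2 + it)|^{2k} dt` -/
noncomputable def M (k T : ℝ) : ℝ :=
  ∫ t in (0 : ℝ)..T, ‖riemannZeta (1 / 2 + t * Complex.I)‖ ^ (2 * k)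

/-- the `2k`-th moment of the local geometric means, `∫_0^T exp(2k G(a, t)) dt` -/
noncomputable def N (k a T : ℝ) : ℝ := ∫ t in (0 : ℝ)..T, Real.exp (2 * k * G a t)

lemma pt (t : ℝ) : (1 / 2 + t * Complex.I : ℂ) = ⟨1 / 2, t⟩ := by
  apply Complex.ext <;> simp

lemma L0 (u : ℝ) : L 0 u = Real.log ‖riemannZeta (1 / 2 + u * Complex.I)‖ := by
  rw [pt]; simp [L]

lemma G_eq (a t : ℝ) : G a t = GG a t := by
  unfold G GG
  simp_rw [L0]

lemma M_eq (k T : ℝ) : M k T = ∫ t in (0 : ℝ)..T, ‖riemannZeta ⟨1 / 2, t⟩‖ ^ (2 * k) := by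
  unfold M
  simp_rw [pt]

lemma N_eq (k a T : ℝ) : N k a T = ∫ t in (0 : ℝ)..T, Real.exp (2 * k * GG a t) := by
  unfold N
  simp_rw [G_eq]

lemma zeta_cont : Continuous (fun t : ℝ => riemannZeta (1 / 2 + t * Complex.I)) := by
  rw [continuous_iff_continuousAt]
  intro t
  have h1 : (1 / 2 + t * Complex.I : ℂ) ≠ 1 := by
    intro h
    have := congrArg Complex.re h
    norm_num at this
  have h2 : ContinuousAt (fun t : ℝ => (1 / 2 + t * Complex.I : ℂ)) t := by fun_prop
  exact ContinuousAt.comp (f := fun t : ℝ => (1 / 2 + t * Complex.I : ℂ))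
    (differentiableAt_riemannZeta h1).continuousAt h2

lemma M_int (k : ℝ) (hk : 0 < k) (a b : ℝ) : IntervalIntegrable
    (fun t : ℝ => ‖riemannZeta (1 / 2 + t * Complex.I)‖ ^ (2 * k)) volume a b := by
  apply Continuous.intervalIntegrable
  exact (zeta_cont.norm).rpow_const (fun _ => Or.inr (by positivity))

lemma M_nonneg (k T : ℝ) (hT : 0 ≤ T) : 0 ≤ M k T :=
  intervalIntegral.integral_nonneg hT (fun _ _ => by positivity)

lemma N_nonneg (k a T : ℝ) (hT : 0 ≤ T) : 0 ≤ N k a T :=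
  intervalIntegral.integral_nonneg hT (fun _ _ => (Real.exp_pos _).le)

lemma M_mono (k : ℝ) (hk : 0 < k) {S T : ℝ} (hS : 0 ≤ S) (h : S ≤ T) : M k S ≤ M k T := by
  unfold M
  apply intervalIntegral.integral_mono_interval le_rfl hS h
  · exact Eventually.of_forall (fun _ => by positivity)
  · exact M_int k hk 0 T

/-- the two inequalities between the moments, in the final notation -/
def S_TWO : Prop := ∃ A : ℝ, 0 < A ∧ ∀ k : ℝ, 0 < k → ∃ C : ℝ, 0 < C ∧ ∀ a T : ℝ,
  0 < a → a ≤ 1 / 4 → 1 ≤ T →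
  M k T ≤ C * T ^ (k * a) * (T + N k a (2 * T)) ∧
  N k a T ≤ C * T ^ (A * k * a) * (T + M k (2 * T))

lemma two (h1 : S_M1) (h2 : S_M2) : S_TWO := by
  obtain ⟨A, hA, h2⟩ := h2
  refine ⟨A, hA, fun k hk => ?_⟩
  obtain ⟨C1, hC1, h1⟩ := h1 k hk
  obtain ⟨C2, hC2, h2⟩ := h2 k hk
  refine ⟨max C1 C2, by positivity, fun a T ha ha4 hT => ⟨?_, ?_⟩⟩
  · have := h1 a T ha ha4 hT
    rw [← M_eq, ← N_eq] at this
    refine this.trans ?_
    have h0 := N_nonneg k a (2 * T) (by linarith)
    gcongr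
    exact le_max_left _ _
  · have := h2 a T ha ha4 hT
    rw [← M_eq, ← N_eq] at this
    refine this.trans ?_
    have h0 := M_nonneg k (2 * T) (by linarith)
    gcongr
    exact le_max_right _ _

lemma rpow_scale {T c l : ℝ} (hT : 1 < T) : T ^ (l * (c / Real.log T)) = Real.exp (l * c) := by
  have h : 0 < Real.log T := Real.log_pos hT
  rw [Real.rpow_def_of_pos (by linarith)]
  congr 1
  field_simp

/-- equivalence at the scale `c / log T`, with a general comparison function -/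
theorem scale (h : S_TWO) (k c D : ℝ) (F : ℝ → ℝ) (hk : 0 < k) (hc : 0 < c) (hD : 0 < D)
    (hF : ∀ T : ℝ, 2 ≤ T → T ≤ D * F T ∧ F (2 * T) ≤ D * F T) :
    (∃ C : ℝ, ∀ T : ℝ, 2 ≤ T → M k T ≤ C * F T) ↔
    ∃ C T₀ : ℝ, ∀ T : ℝ, T₀ ≤ T → N k (c / Real.log T) T ≤ C * F T := by
  obtain ⟨A, hA, h⟩ := h
  obtain ⟨C0, hC0, h⟩ := h k hk
  have hFp : ∀ T : ℝ, 2 ≤ T → 0 < F T := fun T hT => by
    have := (hF T hT).1
    by_contra h0
    push Not at h0
    nlinarith
  have hsm : ∀ T : ℝ, Real.exp (4 * c) + 2 ≤ T → c / Real.log T ≤ 1 / 4 ∧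
      0 < c / Real.log T ∧ 2 ≤ T := by
    intro T hT
    have h2 : 2 ≤ T := by linarith [Real.exp_pos (4 * c)]
    have h3 : 4 * c ≤ Real.log T := by
      rw [Real.le_log_iff_exp_le (by linarith)]; linarith
    have h4 : 0 < Real.log T := Real.log_pos (by linarith)
    refine ⟨?_, by positivity, h2⟩
    rw [div_le_div_iff₀ h4 (by norm_num)]
    linarith
  constructor
  · rintro ⟨C, hC⟩
    refine ⟨C0 * Real.exp (A * k * c) * (D + |C| * D), Real.exp (4 * c) + 2, fun T hT => ?_⟩
    obtain ⟨ha, ha0, hT2⟩ := hsm T hT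
    have h1 := (h (c / Real.log T) T ha0 ha (by linarith)).2
    rw [rpow_scale (by linarith)] at h1
    refine h1.trans ?_
    have h2 := hC (2 * T) (by linarith)
    have h3 := (hF T hT2)
    have h4 := hFp T hT2
    have h5 := hFp (2 * T) (by linarith)
    have h6 : M k (2 * T) ≤ |C| * (D * F T) := h2.trans (by
      calc C * F (2 * T) ≤ |C| * F (2 * T) := by gcongr; exact le_abs_self _
        _ ≤ |C| * (D * F T) := by gcongr; exact h3.2)
    calc C0 * Real.exp (A * k * c) * (T + M k (2 * T))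
        ≤ C0 * Real.exp (A * k * c) * (D * F T + |C| * (D * F T)) := by
          gcongr; exact h3.1
      _ = _ := by ring
  · rintro ⟨C, T₀, hC⟩
    set T₁ := max T₀ (Real.exp (4 * c) + 2) with hT₁
    refine ⟨C0 * Real.exp (k * c) * (D + |C| * D) + M k T₁ * D, fun T hT => ?_⟩
    have h3 := (hF T hT)
    have h4 := hFp T hT
    have hT10 : 0 ≤ T₁ := (by positivity : (0:ℝ) ≤ Real.exp (4 * c) + 2).trans (le_max_right _ _)
    have hM0 := M_nonneg k T₁ hT10
    rcases le_total T T₁ with hTT | hTT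
    · have h5 := M_mono k hk (by linarith : (0:ℝ) ≤ T) hTT
      have h6 : M k T₁ ≤ M k T₁ * (D * F T) := by
        have : 1 ≤ D * F T := by linarith
        nlinarith
      have h7 : 0 ≤ C0 * Real.exp (k * c) * (D + |C| * D) * F T := by positivity
      calc M k T ≤ M k T₁ * (D * F T) := h5.trans h6
        _ ≤ C0 * Real.exp (k * c) * (D + |C| * D) * F T + M k T₁ * (D * F T) := by linarith
        _ = _ := by ring
    · have h2T : T₁ ≤ 2 * T := by linarith
      obtain ⟨ha, ha0, hT2⟩ := hsm (2 * T) ((le_max_right _ _).trans h2T)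
      have h1 := (h (c / Real.log (2 * T)) T ha0 ha (by linarith)).1
      have h5 : T ^ (k * (c / Real.log (2 * T))) ≤ Real.exp (k * c) := by
        rw [← rpow_scale (T := 2 * T) (by linarith)]
        apply Real.rpow_le_rpow (by linarith) (by linarith)
        positivity
      have h6 := hC (2 * T) ((le_max_left _ _).trans h2T)
      have h7 : N k (c / Real.log (2 * T)) (2 * T) ≤ |C| * (D * F T) := h6.trans (by
        have h8 := hFp (2 * T) (by linarith)
        calc C * F (2 * T) ≤ |C| * F (2 * T) := by gcongr; exact le_abs_self _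
          _ ≤ |C| * (D * F T) := by gcongr; exact h3.2)
      have h9 := N_nonneg k (c / Real.log (2 * T)) (2 * T) (by linarith)
      have h10 : 0 ≤ M k T₁ * D * F T := by positivity
      calc M k T ≤ C0 * T ^ (k * (c / Real.log (2 * T))) *
            (T + N k (c / Real.log (2 * T)) (2 * T)) := h1
        _ ≤ C0 * Real.exp (k * c) * (D * F T + |C| * (D * F T)) := by
          gcongr
          exact h3.1
        _ ≤ C0 * Real.exp (k * c) * (D * F T + |C| * (D * F T)) + M k T₁ * D * F T := by linarith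
        _ = _ := by ring

end Pool.Agent.N799.LG
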