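import Pool.Agent.N799.LG.Fin

set_option autoImplicit false

/-! # Project LG: assembly, second part -/

namespace Pool.Agent.N799.LG

open Filter Topology Set MeasureTheory

/-- the scale `c / log T` and the comparison functions `T (log T)^β` -/
theorem scale_log (h : S_TWO) (k c β : ℝ) (hk : 0 < k) (hc : 0 < c) (hβ : 0 ≤ β) :
    (∃ C : ℝ, ∀ T : ℝ, 2 ≤ T → M k T ≤ C * (T * Real.log T ^ β)) ↔
    ∃ C T₀ : ℝ, ∀ T : ℝ, T₀ ≤ T →
      N k (c / Real.log T) T ≤ C * (T * Real.log T ^ β) := by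
  have hl2 : 0 < Real.log 2 := Real.log_pos (by norm_num)
  refine scale h k c (max (Real.log 2 ^ (-β)) (2 * 2 ^ β)) (fun T => T * Real.log T ^ β) hk hc
    (lt_max_of_lt_right (by positivity : (0:ℝ) < 2 * 2 ^ β)) ?_
  intro T hT
  have hlT : Real.log 2 ≤ Real.log T := Real.log_le_log (by norm_num) hT
  constructor
  · have h1 : 1 ≤ Real.log 2 ^ (-β) * Real.log T ^ β := by
      rw [Real.rpow_neg hl2.le, inv_mul_eq_div, le_div_iff₀ (Real.rpow_pos_of_pos hl2 β), one_mul]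
      exact Real.rpow_le_rpow hl2.le hlT hβ
    have h2 : 0 ≤ Real.log T ^ β := Real.rpow_nonneg (by linarith) β
    calc T ≤ T * (Real.log 2 ^ (-β) * Real.log T ^ β) := le_mul_of_one_le_right (by linarith) h1
      _ = Real.log 2 ^ (-β) * (T * Real.log T ^ β) := by ring
      _ ≤ _ := by gcongr; exact le_max_left _ _
  · have h1 : Real.log (2 * T) ≤ 2 * Real.log T := by
      rw [Real.log_mul (by norm_num) (by linarith)]
      linarith
    have h0 : 0 ≤ Real.log (2 * T) := Real.log_nonneg (by linarith)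
    have h2 : Real.log (2 * T) ^ β ≤ 2 ^ β * Real.log T ^ β := by
      rw [← Real.mul_rpow (by norm_num) (by linarith)]
      exact Real.rpow_le_rpow h0 h1 hβ
    calc 2 * T * Real.log (2 * T) ^ β ≤ 2 * T * (2 ^ β * Real.log T ^ β) := by gcongr
      _ = (2 * 2 ^ β) * (T * Real.log T ^ β) := by ring
      _ ≤ _ := by
        have : 0 ≤ Real.log T ^ β := by
          apply Real.rpow_nonneg; linarith
        gcongr
        exact le_max_right _ _

/-- fixed small scales and powers of `T` -/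
theorem weak (h : S_TWO) (k m : ℝ) (hk : 0 < k) (hm : 1 ≤ m) :
    (∀ ε : ℝ, 0 < ε → ∃ C : ℝ, ∀ T : ℝ, 1 ≤ T → M k T ≤ C * T ^ (m + ε)) ↔
    ∀ ε : ℝ, 0 < ε → ∃ a₀ : ℝ, 0 < a₀ ∧ ∀ a : ℝ, 0 < a → a ≤ a₀ → ∃ C : ℝ, ∀ T : ℝ, 1 ≤ T →
      N k a T ≤ C * T ^ (m + ε) := by
  obtain ⟨A, hA, h⟩ := h
  obtain ⟨C0, hC0, h⟩ := h k hk
  have key : ∀ (X Y : ℝ → ℝ) (b : ℝ) (ε : ℝ), 0 < ε → 0 ≤ b → b ≤ ε / 2 →
      (∀ T, 1 ≤ T → X T ≤ C0 * T ^ b * (T + Y (2 * T))) →
      (∃ C : ℝ, ∀ T : ℝ, 1 ≤ T → Y T ≤ C * T ^ (m + ε / 2)) →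
      ∃ C : ℝ, ∀ T : ℝ, 1 ≤ T → X T ≤ C * T ^ (m + ε) := by
    rintro X Y b ε hε hb0 hb hX ⟨C, hC⟩
    refine ⟨C0 * (1 + |C| * 2 ^ (m + ε / 2)), fun T hT => ?_⟩
    have hT0 : 0 < T := by linarith
    have h1 : T ≤ T ^ (m + ε / 2) := by
      calc T = T ^ (1 : ℝ) := (Real.rpow_one T).symm
        _ ≤ T ^ (m + ε / 2) := Real.rpow_le_rpow_of_exponent_le hT (by linarith)
    have h2 : Y (2 * T) ≤ |C| * 2 ^ (m + ε / 2) * T ^ (m + ε / 2) := by
      refine (hC (2 * T) (by linarith)).trans ?_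
      rw [Real.mul_rpow (by norm_num) hT0.le, ← mul_assoc]
      gcongr
      exact le_abs_self _
    calc X T ≤ C0 * T ^ b * (T + Y (2 * T)) := hX T hT
      _ ≤ C0 * T ^ b * (T ^ (m + ε / 2) + |C| * 2 ^ (m + ε / 2) * T ^ (m + ε / 2)) := by
        gcongr
      _ = C0 * (1 + |C| * 2 ^ (m + ε / 2)) * (T ^ b * T ^ (m + ε / 2)) := by ring
      _ ≤ C0 * (1 + |C| * 2 ^ (m + ε / 2)) * T ^ (m + ε) := by
        rw [← Real.rpow_add hT0]
        have h5 : T ^ (b + (m + ε / 2)) ≤ T ^ (m + ε) :=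
          Real.rpow_le_rpow_of_exponent_le hT (by linarith)
        gcongr
  constructor
  · intro H ε hε
    refine ⟨min (1 / 4) (ε / (2 * (A * k))), by positivity, fun a ha haa => ?_⟩
    have h1 : a ≤ 1 / 4 := haa.trans (min_le_left _ _)
    have h2 : A * k * a ≤ ε / 2 := by
      have := haa.trans (min_le_right _ _)
      rw [le_div_iff₀ (by positivity)] at this
      linarith
    exact key (N k a) (M k) (A * k * a) ε hε (by positivity) h2
      (fun T hT => (h a T ha h1 hT).2) (H (ε / 2) (by linarith))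
  · intro H ε hε
    obtain ⟨a₀, ha₀, H⟩ := H (ε / 2) (by linarith)
    set a := min a₀ (min (1 / 4) (ε / (2 * k))) with hadef
    have ha : 0 < a := by positivity
    have h1 : a ≤ 1 / 4 := (min_le_right _ _).trans (min_le_left _ _)
    have h2 : k * a ≤ ε / 2 := by
      have : a ≤ ε / (2 * k) := (min_le_right _ _).trans (min_le_right _ _)
      rw [le_div_iff₀ (by positivity)] at this
      linarith
    exact key (M k) (N k a) (k * a) ε hε (by positivity) h2
      (fun T hT => (h a T ha h1 hT).1) (H a ha (min_le_left _ _))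

end Pool.Agent.N799.LG
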