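import Pool.Agent.N799.LG.Fin

set_option autoImplicit false

/-! # Project LG: the supremum norm -/

namespace Pool.Agent.N799.LG

open Filter Topology Set MeasureTheory

/-- the case of the supremum norm -/
def S_SUP : Prop := ∃ A C : ℝ, 0 < A ∧ 0 < C ∧ ∀ a T B : ℝ, 0 < a → a ≤ 1 / 4 → 1 ≤ T → 1 ≤ B →
  ((∀ t : ℝ, |t| ≤ 2 * T → Real.exp (G a t) ≤ B) →
    ∀ t : ℝ, |t| ≤ T → ‖riemannZeta (1 / 2 + t * Complex.I)‖ ≤ C * T ^ (a / 2) * B) ∧
  ((∀ t : ℝ, |t| ≤ 2 * T → ‖riemannZeta (1 / 2 + t * Complex.I)‖ ≤ B) →
    ∀ t : ℝ, |t| ≤ T → Real.exp (G a t) ≤ C * T ^ (A * a) * B)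

lemma pois_le (a : ℝ) (ha : 0 < a) :
    ∫ u in (-1 : ℝ)..1, (a / Real.pi / (a ^ 2 + u ^ 2)) ≤ 1 := by
  have h1 : Integrable (fun u : ℝ => a / Real.pi / (a ^ 2 + u ^ 2)) ∧
      ∫ u : ℝ, a / Real.pi / (a ^ 2 + u ^ 2) = 1 := by
    have e : (fun u : ℝ => a / Real.pi / (a ^ 2 + u ^ 2)) =
        fun u : ℝ => (1 / (Real.pi * a)) * (fun x : ℝ => (1 + x ^ 2)⁻¹) (u / a) := by
      funext u
      have : 0 < a ^ 2 + u ^ 2 := by positivity
      have : 0 < 1 + (u / a) ^ 2 := by positivity
      field_simp
    rw [e]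
    constructor
    · exact (integrable_inv_one_add_sq.comp_div ha.ne').const_mul _
    · rw [integral_const_mul, MeasureTheory.Measure.integral_comp_div (fun x : ℝ => (1 + x ^ 2)⁻¹) a,
        integral_univ_inv_one_add_sq, abs_of_pos ha, smul_eq_mul]
      field_simp
  rw [intervalIntegral.integral_of_le (by norm_num), ← h1.2]
  exact setIntegral_le_integral h1.1 (Eventually.of_forall fun u => by positivity)

theorem sup (h1 : S_PT) (h2 : S_TP) (h3 : S_UP) (h4 : S_KER) : S_SUP := by
  obtain ⟨C1, hC1, h1⟩ := h1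
  obtain ⟨A, C2, hA, hC2, h2⟩ := h2
  obtain ⟨-, -, C3, hC3, h3⟩ := h3
  refine ⟨A, Real.exp (C1 + 3 * C3) * 3 + Real.exp C2 * 3 ^ (A / 4), hA, by positivity,
    fun a T B ha ha4 hT hB => ⟨fun hG t ht => ?_, fun hz t ht => ?_⟩⟩
  · obtain ⟨-, hKi, hK1, hKp, -, -, hKl, hKl1⟩ := h4 a ha ha4
    have hlB : 0 ≤ Real.log B := Real.log_nonneg hB
    obtain ⟨hi, hp⟩ := h1 a ha ha4 t
    have hpt : ∀ u : ℝ, max (GG a (t + u)) 0 ≤ Real.log B + C3 * (1 + 2 * Real.log (1 + |u|)) := by
      intro u
      have hlu : 0 ≤ Real.log (1 + |u|) := Real.log_nonneg (by linarith [abs_nonneg u])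
      apply max_le _ (by positivity)
      by_cases hu : |t + u| ≤ 2 * T
      · have := hG (t + u) hu
        rw [G_eq] at this
        have h5 := Real.log_le_log (Real.exp_pos _) this
        rw [Real.log_exp] at h5
        have : 0 ≤ C3 * (1 + 2 * Real.log (1 + |u|)) := by positivity
        linarith
      · push Not at hu
        have h6 := abs_add_le t u
        have h7 : 1 + |t + u| ≤ (1 + |u|) ^ 2 := by nlinarith [abs_nonneg u]
        have h8 : Real.log (1 + |t + u|) ≤ 2 * Real.log (1 + |u|) := by
          have := Real.log_le_log (by positivity) h7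
          rwa [Real.log_pow] at this
        have h9 := h3 a ha ha4 (t + u)
        have h10 : C3 * (1 + Real.log (1 + |t + u|)) ≤ C3 * (1 + 2 * Real.log (1 + |u|)) := by
          gcongr
        linarith
    have hint : ∫ u : ℝ, max (GG a (t + u)) 0 * KK a u ≤ Real.log B + 3 * C3 := by
      have hii : Integrable (fun u : ℝ => (Real.log B + C3) * KK a u +
          2 * C3 * (KK a u * Real.log (1 + |u|))) := (hKi.const_mul _).add (hKl.const_mul _)
      calc ∫ u : ℝ, max (GG a (t + u)) 0 * KK a u
          ≤ ∫ u : ℝ, ((Real.log B + C3) * KK a u + 2 * C3 * (KK a u * Real.log (1 + |u|))) := by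
            apply integral_mono hi hii
            intro u
            have := mul_le_mul_of_nonneg_right (hpt u) (hKp u).le
            simp only
            linarith
        _ = (Real.log B + C3) + 2 * C3 * ∫ u : ℝ, (KK a u * Real.log (1 + |u|)) := by
            rw [integral_add (hKi.const_mul _) (hKl.const_mul _), integral_const_mul,
              integral_const_mul, hK1, mul_one]
        _ ≤ _ := by nlinarith
    have hT2 : Real.log (2 + |t|) ≤ Real.log 3 + Real.log T := by
      rw [← Real.log_mul (by norm_num) (by linarith)]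
      exact Real.log_le_log (by positivity) (by linarith)
    by_cases hz : ‖riemannZeta (1 / 2 + t * Complex.I)‖ = 0
    · rw [hz]; positivity
    have hzp : 0 < ‖riemannZeta (1 / 2 + t * Complex.I)‖ := lt_of_le_of_ne (norm_nonneg _) (Ne.symm hz)
    rw [L0] at hp
    have hfin : Real.log ‖riemannZeta (1 / 2 + t * Complex.I)‖ ≤
        (C1 + 3 * C3) + Real.log 3 + a / 2 * Real.log T + Real.log B := by
      have h5 : a / 2 * Real.log (2 + |t|) ≤ a / 2 * (Real.log 3 + Real.log T) := by gcongr
      have h6 : a / 2 * Real.log 3 ≤ Real.log 3 := by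
        have : 0 < Real.log 3 := Real.log_pos (by norm_num)
        nlinarith
      linarith
    have hT0 : 0 < T := by linarith
    calc ‖riemannZeta (1 / 2 + t * Complex.I)‖
        = Real.exp (Real.log ‖riemannZeta (1 / 2 + t * Complex.I)‖) := (Real.exp_log hzp).symm
      _ ≤ Real.exp ((C1 + 3 * C3) + Real.log 3 + a / 2 * Real.log T + Real.log B) :=
          Real.exp_le_exp.mpr hfin
      _ = (Real.exp (C1 + 3 * C3) * 3) * T ^ (a / 2) * B := by
          rw [Real.exp_add, Real.exp_add, Real.exp_add, Real.exp_log (by norm_num),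
            Real.exp_log (by linarith), Real.rpow_def_of_pos hT0, mul_comm (Real.log T)]
      _ ≤ _ := by
          gcongr
          have : 0 ≤ Real.exp C2 * 3 ^ (A / 4) := by positivity
          linarith
  · have hlB : 0 ≤ Real.log B := Real.log_nonneg hB
    have hp := h2 a ha ha4 t
    have hT0 : 0 < T := by linarith
    have hint : ∫ u in (-1 : ℝ)..1, max (L 0 (t + u)) 0 * (a / Real.pi / (a ^ 2 + u ^ 2)) ≤
        Real.log B := by
      have hpi : IntervalIntegrable (fun u : ℝ => Real.log B * (a / Real.pi / (a ^ 2 + u ^ 2)))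
          volume (-1) 1 := by
        apply Continuous.intervalIntegrable
        refine continuous_const.mul (Continuous.div₀ continuous_const (by fun_prop) ?_)
        intro u
        positivity
      have hb : ∀ u ∈ Set.Ioc (-1 : ℝ) 1, ‖max (L 0 (t + u)) 0 * (a / Real.pi / (a ^ 2 + u ^ 2))‖ ≤
          Real.log B * (a / Real.pi / (a ^ 2 + u ^ 2)) := by
        intro u hu
        rw [norm_mul, Real.norm_of_nonneg (le_max_right _ _), Real.norm_of_nonneg (by positivity)]
        gcongr
        apply max_le _ hlB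
        rw [L0]
        by_cases hz0 : ‖riemannZeta (1 / 2 + ((t + u : ℝ) : ℂ) * Complex.I)‖ = 0
        · rw [hz0, Real.log_zero]; exact hlB
        · apply Real.log_le_log (lt_of_le_of_ne (norm_nonneg _) (Ne.symm hz0))
          apply hz
          have := abs_add_le t u
          have : |u| ≤ 1 := abs_le.mpr ⟨hu.1.le, hu.2⟩
          linarith
      have h5 := intervalIntegral.norm_integral_le_of_norm_le (by norm_num : (-1 : ℝ) ≤ 1)
        (Eventually.of_forall hb) hpi
      refine (le_abs_self _).trans (h5.trans ?_)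
      rw [intervalIntegral.integral_const_mul]
      have := pois_le a ha
      calc Real.log B * ∫ u in (-1 : ℝ)..1, (a / Real.pi / (a ^ 2 + u ^ 2)) ≤ Real.log B * 1 := by
            gcongr
        _ = _ := mul_one _
    rw [G_eq]
    have hT2 : Real.log (2 + |t|) ≤ Real.log 3 + Real.log T := by
      rw [← Real.log_mul (by norm_num) (by linarith)]
      exact Real.log_le_log (by positivity) (by linarith)
    have hfin : GG a t ≤ C2 + A / 4 * Real.log 3 + A * a * Real.log T + Real.log B := by
      have h5 : A * a * Real.log (2 + |t|) ≤ A * a * (Real.log 3 + Real.log T) := by gcongr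
      have h6 : A * a * Real.log 3 ≤ A / 4 * Real.log 3 := by
        have : 0 < Real.log 3 := Real.log_pos (by norm_num)
        have : A * a ≤ A / 4 := by nlinarith
        gcongr
      linarith
    calc Real.exp (GG a t)
        ≤ Real.exp (C2 + A / 4 * Real.log 3 + A * a * Real.log T + Real.log B) :=
          Real.exp_le_exp.mpr hfin
      _ = (Real.exp C2 * 3 ^ (A / 4)) * T ^ (A * a) * B := by
          rw [Real.exp_add, Real.exp_add, Real.exp_add,
            Real.exp_log (by linarith), Real.rpow_def_of_pos hT0, Real.rpow_def_of_pos (by norm_num),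
            mul_comm (Real.log T), mul_comm (Real.log 3)]
      _ ≤ _ := by
          gcongr
          have : 0 ≤ Real.exp (C1 + 3 * C3) * 3 := by positivity
          linarith

end Pool.Agent.N799.LG
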