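import Pool.Agent.N799.LG.Def
import Pool.Agent.H388LH.ZG
import Pool.Agent.N491.SC_2
import Pool.Agent.N163.SC_1

set_option autoImplicit false

/-!
# Project LG (helper799), part CEN (helper2): the value of zeta at the centre of the strip
-/

namespace Pool.Agent.N799.LG

open Complex Filter Topology Set MeasureTheory

/-- Jensen's inequality in the strip -/
theorem cenStrip : Pool.Agent.N804.GM.S_STRIP :=
  Pool.Agent.N491.SC2.main Pool.Agent.N163.SC1.main

/-! ### The entire function `(s - 1) ζ(s)` (as in N27/GM_3) -/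

/-- the function `(s - 1) ζ(s)` -/
noncomputable def cenH : ℂ → ℂ := Function.update (fun s => (s - 1) * riemannZeta s) 1 1

theorem cenH_of_ne {s : ℂ} (hs : s ≠ 1) : cenH s = (s - 1) * riemannZeta s := by
  unfold cenH
  rw [Function.update_of_ne hs]

theorem cenH_one : cenH 1 = 1 := by
  unfold cenH
  rw [Function.update_self]

theorem cenH_event {s : ℂ} (hs : s ≠ 1) : cenH =ᶠ[𝓝 s] fun z => (z - 1) * riemannZeta z := by
  filter_upwards [isOpen_ne.mem_nhds hs] with z hz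
  exact cenH_of_ne hz

theorem cenH_diff {s : ℂ} (hs : s ≠ 1) : DifferentiableAt ℂ cenH s := by
  have h1 : DifferentiableAt ℂ (fun z => (z - 1) * riemannZeta z) s :=
    (differentiableAt_id.sub_const 1).mul (differentiableAt_riemannZeta hs)
  exact h1.congr_of_eventuallyEq (cenH_event hs)

theorem cenH_an (s : ℂ) : AnalyticAt ℂ cenH s := by
  by_cases hs : s = 1
  · subst hs
    apply Complex.analyticAt_of_differentiable_on_punctured_nhds_of_continuousAt
    · filter_upwards [self_mem_nhdsWithin] with z hz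
      exact cenH_diff hz
    · unfold cenH
      rw [continuousAt_update_same]
      exact riemannZeta_residue_one
  · rw [Complex.analyticAt_iff_eventually_differentiableAt]
    filter_upwards [isOpen_ne.mem_nhds hs] with z hz
    exact cenH_diff hz

theorem cenH_le {s : ℂ} (hs : 1 / 4 ≤ s.re) : ‖cenH s‖ ≤ ‖s‖ + 4 * (‖s‖ * ‖s - 1‖) := by
  by_cases hs1 : s = 1
  · subst hs1
    rw [cenH_one, norm_one, sub_self, norm_zero]
    norm_num
  · have hs0 : 0 < s.re := by linarith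
    have h1 := Pool.Agent.H388LH.fract_int_bound hs0
    have h2 := Pool.Agent.H388LH.zeta_eq hs0 hs1
    have hs1' : s - 1 ≠ 0 := sub_ne_zero.2 hs1
    rw [cenH_of_ne hs1, h2]
    have h3 : (s - 1) * (1 + 1 / (s - 1) -
          s * ∫ u in Ioi (1 : ℝ), ((Int.fract u : ℝ) : ℂ) * (u : ℂ) ^ (-s - 1)) =
        s - s * (s - 1) * ∫ u in Ioi (1 : ℝ), ((Int.fract u : ℝ) : ℂ) * (u : ℂ) ^ (-s - 1) := by
      field_simp
      ring
    rw [h3]
    have h4 : 1 / s.re ≤ 4 := by
      rw [div_le_iff₀ hs0]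
      linarith
    calc ‖s - s * (s - 1) * ∫ u in Ioi (1 : ℝ), ((Int.fract u : ℝ) : ℂ) * (u : ℂ) ^ (-s - 1)‖
        ≤ ‖s‖ + ‖s * (s - 1) * ∫ u in Ioi (1 : ℝ), ((Int.fract u : ℝ) : ℂ) * (u : ℂ) ^ (-s - 1)‖ :=
          norm_sub_le _ _
      _ ≤ ‖s‖ + ‖s‖ * ‖s - 1‖ * 4 := by
          rw [norm_mul, norm_mul]
          gcongr
          exact h1.trans h4
      _ = ‖s‖ + 4 * (‖s‖ * ‖s - 1‖) := by ring

theorem cen_le_den {s : ℂ} (hs : 0 ≤ s.re) : ‖s - 1‖ ≤ ‖s + 1‖ := by
  rw [← sq_le_sq₀ (norm_nonneg _) (norm_nonneg _), Complex.sq_norm, Complex.sq_norm,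
    Complex.normSq_apply, Complex.normSq_apply]
  simp only [Complex.sub_re, Complex.one_re, Complex.sub_im, Complex.one_im, Complex.add_re,
    Complex.add_im]
  nlinarith

theorem cen_le_den' {s : ℂ} (hs : 0 ≤ s.re) : ‖s‖ ≤ ‖s + 1‖ := by
  rw [← sq_le_sq₀ (norm_nonneg _) (norm_nonneg _), Complex.sq_norm, Complex.sq_norm,
    Complex.normSq_apply, Complex.normSq_apply]
  simp only [Complex.one_re, Complex.one_im, Complex.add_re, Complex.add_im]
  nlinarith

theorem cen_den_ne {s : ℂ} (hs : 0 ≤ s.re) : s + 1 ≠ 0 := by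
  intro h
  have h1 := congrArg Complex.re h
  simp at h1
  linarith

/-- the function `ζ(z) (z - 1) / (z + 1)`, `z = s + 1/2 - a + it` -/
noncomputable def cenf (a t : ℝ) (s : ℂ) : ℂ := cenH (s + ⟨1 / 2 - a, t⟩) / (s + ⟨1 / 2 - a, t⟩ + 1)

theorem cenf_an {a t : ℝ} (ha : a ≤ 1 / 4) {s : ℂ} (hs : 0 ≤ s.re) :
    AnalyticAt ℂ (cenf a t) s := by
  unfold cenf
  have h0 : 0 ≤ (s + ⟨1 / 2 - a, t⟩ : ℂ).re := by
    simp
    linarith
  refine AnalyticAt.div ?_ ?_ (cen_den_ne h0)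
  · exact (cenH_an _).fun_comp (by fun_prop)
  · fun_prop

theorem cenf_le {a t : ℝ} (ha0 : 0 < a) (ha : a ≤ 1 / 4) {s : ℂ} (hs : 0 ≤ s.re)
    (hs2 : s.re ≤ 2 * a) :
    ‖cenf a t s‖ ≤ Real.exp ((5 + 4 * |t|) * (1 + |s.im|)) := by
  set z : ℂ := s + ⟨1 / 2 - a, t⟩ with hz
  have hzre : z.re = s.re + (1 / 2 - a) := by simp [hz]
  have hzim : z.im = s.im + t := by simp [hz]
  have hz0 : (1 : ℝ) / 4 ≤ z.re := by rw [hzre]; linarith
  have hden : 0 < ‖z + 1‖ := norm_pos_iff.2 (cen_den_ne (by linarith))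
  have h1 : ‖cenf a t s‖ ≤ 1 + 4 * ‖z - 1‖ := by
    have h2 : ‖cenf a t s‖ = ‖cenH z‖ / ‖z + 1‖ := by
      unfold cenf
      rw [norm_div]
    rw [h2, div_le_iff₀ hden]
    have h3 := cenH_le hz0
    have h4 := cen_le_den' (s := z) (by linarith)
    have h5 := norm_nonneg (z - 1)
    nlinarith [norm_nonneg z]
  have h6 : ‖z - 1‖ ≤ 1 + (|s.im| + |t|) := by
    refine (Complex.norm_le_abs_re_add_abs_im _).trans ?_
    have e1 : (z - 1).re = s.re - 1 / 2 - a := by
      rw [Complex.sub_re, hzre, Complex.one_re]; ring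
    have e2 : (z - 1).im = s.im + t := by
      rw [Complex.sub_im, hzim, Complex.one_im]; ring
    rw [e1, e2]
    refine add_le_add ?_ (abs_add_le _ _)
    rw [abs_le]
    constructor <;> linarith
  have h7 := abs_nonneg s.im
  have h8 := abs_nonneg t
  calc ‖cenf a t s‖ ≤ (5 + 4 * |t|) * (1 + |s.im|) := by nlinarith
    _ ≤ Real.exp ((5 + 4 * |t|) * (1 + |s.im|)) := by
        have := Real.add_one_le_exp ((5 + 4 * |t|) * (1 + |s.im|))
        linarith

/-- values on vertical lines -/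
theorem cenf_line {a t x y : ℝ} (hx : x ≠ 1 / 2) {s : ℂ} (hs : s + ⟨1 / 2 - a, t⟩ = ⟨1 / 2 + x, y⟩) :
    ‖cenf a t s‖ = ‖riemannZeta ⟨1 / 2 + x, y⟩‖ * (‖(⟨1 / 2 + x, y⟩ : ℂ) - 1‖ /
      ‖(⟨1 / 2 + x, y⟩ : ℂ) + 1‖) := by
  have h2 : (⟨1 / 2 + x, y⟩ : ℂ) ≠ 1 := by
    intro h
    have h3 := congrArg Complex.re h
    have h4 : (1 : ℝ) / 2 + x = 1 := by simpa using h3
    apply hx
    linarith
  unfold cenf
  rw [hs, cenH_of_ne h2, norm_div, norm_mul]
  ring

/-- the quotient -/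
theorem cen_ratio {x y : ℝ} (hx : |x| ≤ 1 / 4) :
    1 / 7 ≤ ‖(⟨1 / 2 + x, y⟩ : ℂ) - 1‖ / ‖(⟨1 / 2 + x, y⟩ : ℂ) + 1‖ ∧
    ‖(⟨1 / 2 + x, y⟩ : ℂ) - 1‖ / ‖(⟨1 / 2 + x, y⟩ : ℂ) + 1‖ ≤ 1 := by
  rw [abs_le] at hx
  have hre : (⟨1 / 2 + x, y⟩ : ℂ).re = 1 / 2 + x := rfl
  have h0 : (0 : ℝ) ≤ (⟨1 / 2 + x, y⟩ : ℂ).re := by
    rw [hre]; linarith
  have hpos : 0 < ‖(⟨1 / 2 + x, y⟩ : ℂ) + 1‖ := norm_pos_iff.2 (cen_den_ne h0)
  constructor
  · rw [le_div_iff₀ hpos]
    rw [← sq_le_sq₀ (by positivity) (norm_nonneg _), mul_pow, Complex.sq_norm, Complex.sq_norm,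
      Complex.normSq_apply, Complex.normSq_apply]
    simp only [Complex.sub_re, Complex.one_re, Complex.sub_im, Complex.one_im, Complex.add_re,
      Complex.add_im]
    nlinarith [mul_self_nonneg y]
  · rw [div_le_one hpos]
    exact cen_le_den h0

/-- the logarithm on the lines -/
theorem cen_log {a t x y : ℝ} (hx : |x| ≤ 1 / 4) {s : ℂ}
    (hs : s + ⟨1 / 2 - a, t⟩ = ⟨1 / 2 + x, y⟩) :
    Real.log ‖cenf a t s‖ ≤ L x y ∧ |L x y - Real.log ‖cenf a t s‖| ≤ Real.log 7 := by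
  have hx1 : x ≠ 1 / 2 := by
    intro h
    rw [h, abs_of_pos (by norm_num)] at hx
    norm_num at hx
  rw [cenf_line hx1 hs]
  unfold L
  obtain ⟨h1, h2⟩ := cen_ratio (y := y) hx
  set q : ℝ := ‖(⟨1 / 2 + x, y⟩ : ℂ) - 1‖ / ‖(⟨1 / 2 + x, y⟩ : ℂ) + 1‖ with hq
  set p : ℝ := ‖riemannZeta ⟨1 / 2 + x, y⟩‖ with hp
  have hq0 : 0 < q := by linarith
  have hlog7 : 0 ≤ Real.log 7 := Real.log_nonneg (by norm_num)
  by_cases hp0 : p = 0
  · rw [hp0, zero_mul, Real.log_zero]
    exact ⟨le_rfl, by simpa using hlog7⟩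
  · rw [Real.log_mul hp0 hq0.ne']
    have h3 : Real.log q ≤ 0 := Real.log_nonpos hq0.le h2
    have h4 : -Real.log 7 ≤ Real.log q := by
      rw [← Real.log_inv]
      exact Real.log_le_log (by norm_num) (by rw [← one_div]; exact h1)
    refine ⟨by linarith, ?_⟩
    rw [abs_le]
    constructor <;> linarith

/-- the functional equation for the logarithms -/
theorem cen_fe {C : ℝ} (hC : 1 ≤ C) (hfe : ∀ a v : ℝ, 0 ≤ a → a ≤ 1 / 4 →
    ‖riemannZeta ⟨1 / 2 - a, v⟩‖ ≤ C * (2 + |v|) ^ a * ‖riemannZeta ⟨1 / 2 + a, v⟩‖)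
    {a : ℝ} (ha0 : 0 < a) (ha : a ≤ 1 / 4) (v : ℝ) :
    L (-a) v ≤ L a v + a * Real.log (2 + |v|) + Real.log C := by
  have hv : (0 : ℝ) < 2 + |v| := by positivity
  have hlv : 0 ≤ Real.log (2 + |v|) := Real.log_nonneg (by linarith [abs_nonneg v])
  have hlC : 0 ≤ Real.log C := Real.log_nonneg hC
  have e : (⟨1 / 2 + -a, v⟩ : ℂ) = ⟨1 / 2 - a, v⟩ := by rw [← sub_eq_add_neg]
  have h := hfe a v ha0.le ha
  unfold L
  rw [e]
  by_cases h0 : riemannZeta ⟨1 / 2 - a, v⟩ = 0
  · have h1 : riemannZeta ⟨1 / 2 + a, v⟩ = 0 := by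
      have h2 : riemannZeta (1 - (⟨1 / 2 - a, v⟩ : ℂ)) = 0 := by
        rw [riemannZeta_one_sub, h0, mul_zero]
        · intro n hn
          have h3 := congrArg Complex.re hn
          have h4 : (1 : ℝ) / 2 - a = -(n : ℝ) := by simpa using h3
          have h5 : (0 : ℝ) ≤ n := Nat.cast_nonneg n
          linarith
        · intro hn
          have h3 := congrArg Complex.re hn
          have h4 : (1 : ℝ) / 2 - a = 1 := by simpa using h3
          linarith
      have h5 : (⟨1 / 2 + a, v⟩ : ℂ) = (starRingEnd ℂ) (1 - (⟨1 / 2 - a, v⟩ : ℂ)) := by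
        apply Complex.ext
        · simp
          ring
        · simp
      rw [h5, riemannZeta_conj, h2, map_zero]
    rw [h0, h1, norm_zero, Real.log_zero]
    positivity
  · have h1 : riemannZeta ⟨1 / 2 + a, v⟩ ≠ 0 := by
      intro h1
      rw [h1, norm_zero, mul_zero] at h
      exact h0 (norm_le_zero_iff.1 h)
    have h2 := Real.log_le_log (norm_pos_iff.2 h0) h
    rw [Real.log_mul (by positivity) (norm_ne_zero_iff.2 h1), Real.log_mul (by positivity)
      (by positivity), Real.log_rpow hv] at h2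
    linarith

theorem cen_meas (a t : ℝ) (ha : |a| ≤ 1 / 4) : Measurable fun u : ℝ => L a (t + u) := by
  unfold L
  have h1 : Continuous fun u : ℝ => riemannZeta ⟨1 / 2 + a, t + u⟩ := by
    rw [continuous_iff_continuousAt]
    intro u
    have h2 : (⟨1 / 2 + a, t + u⟩ : ℂ) ≠ 1 := by
      intro h
      have h3 := congrArg Complex.re h
      have h4 : (1 : ℝ) / 2 + a = 1 := by simpa using h3
      rw [abs_le] at ha
      linarith
    have h3 : ContinuousAt riemannZeta ⟨1 / 2 + a, t + u⟩ :=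
      (differentiableAt_riemannZeta h2).continuousAt
    have h4 : Continuous fun u : ℝ => (⟨1 / 2 + a, t + u⟩ : ℂ) := by
      have e : (fun u : ℝ => (⟨1 / 2 + a, t + u⟩ : ℂ)) =
          fun u : ℝ => ((1 / 2 + a : ℝ) : ℂ) + ((t + u : ℝ) : ℂ) * I := by
        funext u
        apply Complex.ext <;> simp
      rw [e]
      fun_prop
    exact ContinuousAt.comp (f := fun u : ℝ => (⟨1 / 2 + a, t + u⟩ : ℂ)) h3 h4.continuousAt
  exact Real.measurable_log.comp h1.norm.measurable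

theorem t_CEN (h1 : S_FE) (h2 : S_KER) : S_CEN := by
  obtain ⟨C, hC, hfe⟩ := h1
  have hlC : 0 ≤ Real.log C := Real.log_nonneg hC
  have hl7 : 0 ≤ Real.log 7 := Real.log_nonneg (by norm_num)
  refine ⟨Real.log 7 + Real.log C + 1, by positivity, fun a ha0 ha t hζ => ?_⟩
  obtain ⟨kc, ki, k1, kp, _, _, kl, kl1⟩ := h2 a ha0 ha
  have hW : 0 < 2 * a := by linarith
  -- the hypotheses of the inequality in the strip
  have hc : ((2 * a : ℝ) : ℂ) / 2 + ⟨1 / 2 - a, t⟩ = ⟨1 / 2 + 0, t⟩ := by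
    apply Complex.ext
    · simp
    · simp
  have hne : cenf a t (((2 * a : ℝ) : ℂ) / 2) ≠ 0 := by
    rw [← norm_ne_zero_iff, cenf_line (by norm_num) hc]
    have h3 := (cen_ratio (x := 0) (y := t) (by norm_num)).1
    refine mul_ne_zero ?_ (by linarith)
    rw [norm_ne_zero_iff, add_zero]
    exact hζ
  obtain ⟨i1, i2, hle⟩ := cenStrip (cenf a t) (5 + 4 * |t|) (2 * a) hW
    (fun s hs => cenf_an ha hs.1) (fun s hs hs2 => cenf_le ha0 ha hs hs2) hne
  -- the lines
  have l1 : ∀ y : ℝ, (y * Complex.I : ℂ) + ⟨1 / 2 - a, t⟩ = ⟨1 / 2 + -a, t + y⟩ := by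
    intro y
    apply Complex.ext
    · simp
      ring
    · simp
      ring
  have l2 : ∀ y : ℝ, (((2 * a : ℝ) : ℂ) + y * Complex.I : ℂ) + ⟨1 / 2 - a, t⟩ =
      ⟨1 / 2 + a, t + y⟩ := by
    intro y
    apply Complex.ext
    · simp
      ring
    · simp
      ring
  have ha1 : |a| ≤ 1 / 4 := by rw [abs_of_pos ha0]; exact ha
  have ha2 : |-a| ≤ 1 / 4 := by rw [abs_neg]; exact ha1
  have g1 := fun y => cen_log (y := t + y) ha2 (l1 y)
  have g2 := fun y => cen_log (y := t + y) ha1 (l2 y)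
  have g0 := cen_log (x := 0) (y := t) (by norm_num) hc
  have hch : ∀ y : ℝ, 0 < Real.cosh (Real.pi * y / (2 * a)) := fun y => Real.cosh_pos _
  have hKK : ∀ y : ℝ, KK a y = 1 / (2 * a) * (1 / Real.cosh (Real.pi * y / (2 * a))) := by
    intro y
    unfold KK
    rw [one_div_mul_one_div]
  -- integrability
  have hint : Integrable (fun u : ℝ => L a (t + u) * KK a u) := by
    refine Integrable.mono' (g := fun u : ℝ =>
      1 / (2 * a) * ‖Real.log ‖cenf a t (((2 * a : ℝ) : ℂ) + u * Complex.I)‖ /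
        Real.cosh (Real.pi * u / (2 * a))‖ + Real.log 7 * KK a u)
      ((i2.norm.const_mul _).add (ki.const_mul _)) ?_ ?_
    · exact ((cen_meas a t ha1).mul kc.measurable).aestronglyMeasurable
    · refine Filter.Eventually.of_forall fun u => ?_
      have e1 := (g2 u).2
      have e2 : |L a (t + u)| ≤ |Real.log ‖cenf a t (((2 * a : ℝ) : ℂ) + u * Complex.I)‖| +
          Real.log 7 := by
        have e3 : L a (t + u) = Real.log ‖cenf a t (((2 * a : ℝ) : ℂ) + u * Complex.I)‖ +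
          (L a (t + u) - Real.log ‖cenf a t (((2 * a : ℝ) : ℂ) + u * Complex.I)‖) := by ring
        have e4 := abs_add_le (Real.log ‖cenf a t (((2 * a : ℝ) : ℂ) + u * Complex.I)‖)
          (L a (t + u) - Real.log ‖cenf a t (((2 * a : ℝ) : ℂ) + u * Complex.I)‖)
        rw [← e3] at e4
        linarith
      rw [Real.norm_eq_abs, abs_mul, abs_of_pos (kp u), Real.norm_eq_abs, abs_div,
        abs_of_pos (hch u)]
      calc |L a (t + u)| * KK a u
          ≤ (|Real.log ‖cenf a t (((2 * a : ℝ) : ℂ) + u * Complex.I)‖| + Real.log 7) * KK a u :=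
            mul_le_mul_of_nonneg_right e2 (kp u).le
        _ = |Real.log ‖cenf a t (((2 * a : ℝ) : ℂ) + u * Complex.I)‖| * KK a u +
            Real.log 7 * KK a u := by ring
        _ = _ := by
            rw [hKK u]
            ring
  refine ⟨hint, ?_⟩
  -- the right-hand side
  have i3 : Integrable (fun y : ℝ => Real.log (2 + |t|) * KK a y) := ki.const_mul _
  have i4 : Integrable (fun y : ℝ => Real.log (2 + |t|) * KK a y +
      KK a y * Real.log (1 + |y|)) := i3.add kl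
  have i5 : Integrable (fun y : ℝ => a / 2 * (Real.log (2 + |t|) * KK a y +
      KK a y * Real.log (1 + |y|))) := i4.const_mul _
  have i6 : Integrable (fun y : ℝ => Real.log C / 2 * KK a y) := ki.const_mul _
  have i7 : Integrable (fun y : ℝ => a / 2 * (Real.log (2 + |t|) * KK a y +
      KK a y * Real.log (1 + |y|)) + Real.log C / 2 * KK a y) := i5.add i6
  have hR : Integrable (fun y : ℝ => L a (t + y) * KK a y +
      (a / 2 * (Real.log (2 + |t|) * KK a y + KK a y * Real.log (1 + |y|)) +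
        Real.log C / 2 * KK a y)) := hint.add i7
  have hLi : Integrable (fun y : ℝ => 1 / (2 * (2 * a)) *
      ((Real.log ‖cenf a t (y * Complex.I)‖ +
        Real.log ‖cenf a t (((2 * a : ℝ) : ℂ) + y * Complex.I)‖) /
          Real.cosh (Real.pi * y / (2 * a)))) := by
    refine Integrable.const_mul ?_ _
    have e : (fun y : ℝ => (Real.log ‖cenf a t (y * Complex.I)‖ +
        Real.log ‖cenf a t (((2 * a : ℝ) : ℂ) + y * Complex.I)‖) /
          Real.cosh (Real.pi * y / (2 * a))) = fun y : ℝ =>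
        Real.log ‖cenf a t (y * Complex.I)‖ / Real.cosh (Real.pi * y / (2 * a)) +
        Real.log ‖cenf a t (((2 * a : ℝ) : ℂ) + y * Complex.I)‖ /
          Real.cosh (Real.pi * y / (2 * a)) := by
      funext y
      rw [add_div]
    rw [e]
    exact i1.add i2
  have hmono : ∫ y : ℝ, 1 / (2 * (2 * a)) *
      ((Real.log ‖cenf a t (y * Complex.I)‖ +
        Real.log ‖cenf a t (((2 * a : ℝ) : ℂ) + y * Complex.I)‖) /
          Real.cosh (Real.pi * y / (2 * a))) ≤ ∫ y : ℝ, (L a (t + y) * KK a y +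
      (a / 2 * (Real.log (2 + |t|) * KK a y + KK a y * Real.log (1 + |y|)) +
        Real.log C / 2 * KK a y)) := by
    refine integral_mono hLi hR fun y => ?_
    have e1 := (g1 y).1
    have e2 := (g2 y).1
    have e3 := cen_fe hC hfe ha0 ha (t + y)
    have e4 : Real.log (2 + |t + y|) ≤ Real.log (2 + |t|) + Real.log (1 + |y|) := by
      rw [← Real.log_mul (by positivity) (by positivity)]
      refine Real.log_le_log (by positivity) ?_
      have := abs_add_le t y
      nlinarith [abs_nonneg t, abs_nonneg y]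
    have e5 : Real.log ‖cenf a t (y * Complex.I)‖ +
        Real.log ‖cenf a t (((2 * a : ℝ) : ℂ) + y * Complex.I)‖ ≤
        2 * L a (t + y) + a * (Real.log (2 + |t|) + Real.log (1 + |y|)) + Real.log C := by
      have := mul_le_mul_of_nonneg_left e4 ha0.le
      linarith
    have e6 := mul_le_mul_of_nonneg_right e5 (kp y).le
    have e7 : 1 / (2 * (2 * a)) * ((Real.log ‖cenf a t (y * Complex.I)‖ +
        Real.log ‖cenf a t (((2 * a : ℝ) : ℂ) + y * Complex.I)‖) /
          Real.cosh (Real.pi * y / (2 * a))) = 1 / 2 * ((Real.log ‖cenf a t (y * Complex.I)‖ +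
        Real.log ‖cenf a t (((2 * a : ℝ) : ℂ) + y * Complex.I)‖) * KK a y) := by
      rw [hKK y]
      field_simp
    show 1 / (2 * (2 * a)) * ((Real.log ‖cenf a t (y * Complex.I)‖ +
        Real.log ‖cenf a t (((2 * a : ℝ) : ℂ) + y * Complex.I)‖) /
          Real.cosh (Real.pi * y / (2 * a))) ≤ L a (t + y) * KK a y +
      (a / 2 * (Real.log (2 + |t|) * KK a y + KK a y * Real.log (1 + |y|)) +
        Real.log C / 2 * KK a y)
    rw [e7]
    linarith
  rw [integral_const_mul] at hmono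
  have hval : ∫ y : ℝ, (L a (t + y) * KK a y +
      (a / 2 * (Real.log (2 + |t|) * KK a y + KK a y * Real.log (1 + |y|)) +
        Real.log C / 2 * KK a y)) = (∫ y : ℝ, L a (t + y) * KK a y) +
      (a / 2 * (Real.log (2 + |t|) * 1 + ∫ y : ℝ, KK a y * Real.log (1 + |y|)) +
        Real.log C / 2 * 1) := by
    rw [integral_add hint i7, integral_add i5 i6, integral_const_mul, integral_add i3 kl,
      integral_const_mul, integral_const_mul, k1]
  rw [hval] at hmono
  have hfin : L 0 t - Real.log 7 ≤ Real.log ‖cenf a t (((2 * a : ℝ) : ℂ) / 2)‖ := by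
    have := (abs_le.1 g0.2).2
    linarith
  have hk : a / 2 * (∫ y : ℝ, KK a y * Real.log (1 + |y|)) ≤ 1 := by
    calc a / 2 * (∫ y : ℝ, KK a y * Real.log (1 + |y|)) ≤ a / 2 * 1 :=
          mul_le_mul_of_nonneg_left kl1 (by linarith)
      _ ≤ 1 := by linarith
  have hfin2 := hfin.trans (hle.trans hmono)
  linarith

end Pool.Agent.N799.LG
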