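import Pool.Agent.N799.LG.Def
import Pool.Agent.TH814.GS.Stir

set_option autoImplicit false

/-! # LG/FE (helper823): the functional equation as an upper bound near the critical line -/

namespace Pool.Agent.N799.LG

open Filter Topology Set Complex
open Pool.Agent.H401R2 (sA)

namespace FE

lemma gam_large {x y : ℝ} (hx : 1 / 2 ≤ x) (hx' : x ≤ 3 / 4) (hy : 1 ≤ y) :
    ‖Gamma ⟨x, y⟩‖ ≤ 2 * √(2 * Real.pi) * (2 + y) ^ (x - 1 / 2) * Real.exp (-(Real.pi * y / 2)) := by
  set z : ℂ := ⟨x, y⟩ with hz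
  have hre : z.re = x := rfl
  have him : z.im = y := rfl
  have hx0 : 0 < x := by linarith
  have hy0 : 0 < y := by linarith
  have hn1 : 1 ≤ ‖z‖ := by
    have := abs_im_le_norm z
    rw [him, abs_of_pos hy0] at this
    linarith
  have hn0 : 0 < ‖z‖ := by linarith
  have hn2 : ‖z‖ ≤ 2 + y := by
    have := norm_le_abs_re_add_abs_im z
    rw [hre, him, abs_of_pos hx0, abs_of_pos hy0] at this
    linarith
  have hs := Pool.Agent.TH814.GS.stir_right (z := z) (by rw [hre]; linarith) hn1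
  have hsq : 0 < √(2 * Real.pi) := Real.sqrt_pos.2 (by positivity)
  have hsA : ‖sA z‖ ≤ 2 * √(2 * Real.pi) := by
    have h1 : ‖sA z / ((√(2 * Real.pi) : ℝ) : ℂ)‖ ≤ 2 := by
      have h2 := norm_add_le (sA z / ((√(2 * Real.pi) : ℝ) : ℂ) - 1) 1
      rw [sub_add_cancel, norm_one] at h2
      have h3 : 1 / ‖z‖ ≤ 1 := by rw [div_le_one hn0]; exact hn1
      linarith
    rwa [norm_div, norm_real, Real.norm_of_nonneg hsq.le, div_le_iff₀ hsq] at h1
  have hG : Gamma z = sA z * exp ((z - 1/2) * log z - z) := by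
    unfold sA
    rw [mul_assoc, ← exp_add, neg_add_cancel, exp_zero, mul_one]
  have harg : Real.pi * y / 2 - x ≤ y * arg z := by
    rw [arg_of_re_nonneg (by rw [hre]; linarith), him]
    set t := y / ‖z‖ with ht
    have ht0 : 0 < t := by positivity
    have h1 : Real.arcsin t = Real.pi / 2 - Real.arccos t := by
      rw [Real.arccos]; ring
    have h2 : Real.arccos t ≤ x / y := by
      have h3 := Real.le_tan (Real.arccos_nonneg t) (Real.arccos_lt_pi_div_two.2 ht0)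
      rw [Real.tan_arccos] at h3
      refine h3.trans (le_of_eq ?_)
      have h4 : 1 - t ^ 2 = (x / ‖z‖) ^ 2 := by
        have h5 : ‖z‖ ^ 2 = x ^ 2 + y ^ 2 := by
          rw [← normSq_eq_norm_sq, normSq_apply, hre, him]; ring
        rw [ht, div_pow, div_pow, eq_div_iff (by positivity), h5]
        have : x ^ 2 + y ^ 2 ≠ 0 := by positivity
        field_simp
        ring
      rw [h4, Real.sqrt_sq (by positivity), ht]
      field_simp
    rw [h1]
    have h6 : y * (x / y) = x := by field_simp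
    nlinarith [mul_le_mul_of_nonneg_left h2 hy0.le]
  rw [hG, norm_mul, norm_exp]
  have hre2 : ((z - 1/2) * log z - z).re = (x - 1 / 2) * Real.log ‖z‖ - y * arg z - x := by
    rw [sub_re, mul_re, log_re, log_im, sub_re, sub_im, hre, him]
    norm_num
  rw [hre2]
  have h7 : Real.exp ((x - 1 / 2) * Real.log ‖z‖ - y * arg z - x) ≤
      (2 + y) ^ (x - 1 / 2) * Real.exp (-(Real.pi * y / 2)) := by
    calc _ ≤ Real.exp (Real.log ‖z‖ * (x - 1 / 2) + -(Real.pi * y / 2)) := by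
          apply Real.exp_le_exp.2
          linarith
      _ = ‖z‖ ^ (x - 1 / 2) * Real.exp (-(Real.pi * y / 2)) := by
          rw [Real.exp_add, ← Real.rpow_def_of_pos hn0]
      _ ≤ _ := by
          apply mul_le_mul_of_nonneg_right _ (Real.exp_pos _).le
          exact Real.rpow_le_rpow hn0.le hn2 (by linarith)
  calc _ ≤ 2 * √(2 * Real.pi) * ((2 + y) ^ (x - 1 / 2) * Real.exp (-(Real.pi * y / 2))) :=
        mul_le_mul hsA h7 (Real.exp_pos _).le (by positivity)
    _ = _ := by ring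

lemma gam_small : ∃ M : ℝ, ∀ x y : ℝ, 1 / 2 ≤ x → x ≤ 3 / 4 → 0 ≤ y → y ≤ 1 →
    ‖Gamma ⟨x, y⟩‖ ≤ M := by
  have hc : ContinuousOn (fun p : ℝ × ℝ => Gamma (⟨p.1, p.2⟩ : ℂ))
      (Icc (1 / 2 : ℝ) (3 / 4) ×ˢ Icc (0 : ℝ) 1) := by
    intro p hp
    have h1 : ContinuousAt (fun p : ℝ × ℝ => (⟨p.1, p.2⟩ : ℂ)) p :=
      (equivRealProdCLM.symm.continuous).continuousAt
    have h2 : ContinuousAt Gamma (⟨p.1, p.2⟩ : ℂ) := by
      refine (differentiableAt_Gamma _ fun m h => ?_).continuousAt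
      have h3 := congrArg re h
      simp only [neg_re, natCast_re] at h3
      have h4 := hp.1.1
      have h5 : (0 : ℝ) ≤ m := Nat.cast_nonneg m
      linarith
    exact (ContinuousAt.comp (f := fun p : ℝ × ℝ => (⟨p.1, p.2⟩ : ℂ)) h2 h1).continuousWithinAt
  obtain ⟨M, hM⟩ := (isCompact_Icc.prod isCompact_Icc).exists_bound_of_continuousOn hc
  exact ⟨M, fun x y h1 h2 h3 h4 => hM (x, y) ⟨⟨h1, h2⟩, ⟨h3, h4⟩⟩⟩

lemma gam : ∃ M : ℝ, 0 < M ∧ ∀ x y : ℝ, 1 / 2 ≤ x → x ≤ 3 / 4 → 0 ≤ y →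
    ‖Gamma ⟨x, y⟩‖ ≤ M * (2 + y) ^ (x - 1 / 2) * Real.exp (-(Real.pi * y / 2)) := by
  obtain ⟨M, hM⟩ := gam_small
  have hsq : 0 < √(2 * Real.pi) := Real.sqrt_pos.2 (by positivity)
  refine ⟨2 * √(2 * Real.pi) + |M| * Real.exp (Real.pi / 2), by positivity, fun x y h1 h2 h3 => ?_⟩
  have hp : 0 < (2 + y) ^ (x - 1 / 2) := Real.rpow_pos_of_pos (by linarith) _
  have he := Real.exp_pos (-(Real.pi * y / 2))
  rcases le_total 1 y with hy | hy
  · refine (gam_large h1 h2 hy).trans ?_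
    apply mul_le_mul_of_nonneg_right _ he.le
    apply mul_le_mul_of_nonneg_right _ hp.le
    have : 0 ≤ |M| * Real.exp (Real.pi / 2) := by positivity
    linarith
  · refine (hM x y h1 h2 h3 hy).trans ?_
    have hp1 : 1 ≤ (2 + y) ^ (x - 1 / 2) := Real.one_le_rpow (by linarith) (by linarith)
    have he1 : 1 ≤ Real.exp (Real.pi / 2) * Real.exp (-(Real.pi * y / 2)) := by
      rw [← Real.exp_add]
      apply Real.one_le_exp
      nlinarith [Real.pi_pos]
    calc M ≤ |M| := le_abs_self M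
      _ = |M| * 1 * 1 := by ring
      _ ≤ |M| * (2 + y) ^ (x - 1 / 2) * (Real.exp (Real.pi / 2) * Real.exp (-(Real.pi * y / 2))) := by
          gcongr
      _ = |M| * Real.exp (Real.pi / 2) * (2 + y) ^ (x - 1 / 2) * Real.exp (-(Real.pi * y / 2)) := by
          ring
      _ ≤ _ := by
          apply mul_le_mul_of_nonneg_right _ he.le
          apply mul_le_mul_of_nonneg_right _ hp.le
          linarith

lemma cos_bound (z : ℂ) : ‖cos z‖ ≤ Real.exp |z.im| := by
  rw [Complex.cos, norm_div]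
  have h1 := norm_add_le (exp (z * I)) (exp (-z * I))
  rw [norm_exp, norm_exp] at h1
  have e1 : (z * I).re = -z.im := by simp
  have e2 : (-z * I).re = z.im := by simp
  rw [e1, e2] at h1
  have h2 : Real.exp (-z.im) ≤ Real.exp |z.im| := Real.exp_le_exp.2 (neg_le_abs _)
  have h3 : Real.exp z.im ≤ Real.exp |z.im| := Real.exp_le_exp.2 (le_abs_self _)
  rw [show ‖(2 : ℂ)‖ = 2 by simp, div_le_iff₀ (by norm_num)]
  linarith

end FE

open FE in
/-- **LG/FE** -/
theorem t_FE : S_FE := by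
  obtain ⟨M, hM0, hM⟩ := gam
  refine ⟨max 1 (2 * M), le_max_left _ _, fun a v ha ha' => ?_⟩
  set s : ℂ := ⟨1 / 2 + a, -v⟩ with hs
  have hre : s.re = 1 / 2 + a := rfl
  have him : s.im = -v := rfl
  have h1 : (⟨1 / 2 - a, v⟩ : ℂ) = 1 - s := by
    apply Complex.ext
    · rw [sub_re, hre, one_re]; ring
    · rw [sub_im, him, one_im]; ring
  have h2 : ∀ n : ℕ, s ≠ -n := by
    intro n h
    have h3 := congrArg re h
    simp only [neg_re, natCast_re, hre] at h3
    have h5 : (0 : ℝ) ≤ n := Nat.cast_nonneg n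
    linarith
  have h3 : s ≠ 1 := by
    intro h
    have h3 := congrArg re h
    simp only [one_re, hre] at h3
    linarith
  have h4 : ‖riemannZeta s‖ = ‖riemannZeta ⟨1 / 2 + a, v⟩‖ := by
    have h5 : s = (starRingEnd ℂ) ⟨1 / 2 + a, v⟩ := by
      apply Complex.ext <;> simp [hs]
    rw [h5, riemannZeta_conj, norm_conj]
  have h5 : ‖Gamma s‖ ≤ M * (2 + |v|) ^ a * Real.exp (-(Real.pi * |v| / 2)) := by
    have h6 : ‖Gamma s‖ = ‖Gamma ⟨1 / 2 + a, |v|⟩‖ := by
      rcases le_total 0 v with hv | hv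
      · have h5 : s = (starRingEnd ℂ) ⟨1 / 2 + a, |v|⟩ := by
          apply Complex.ext <;> simp [hs, abs_of_nonneg hv]
        rw [h5, Gamma_conj, norm_conj]
      · have h5 : s = ⟨1 / 2 + a, |v|⟩ := by
          apply Complex.ext <;> simp [hs, abs_of_nonpos hv]
        rw [h5]
    rw [h6]
    have h7 := hM (1 / 2 + a) |v| (by linarith) (by linarith) (abs_nonneg v)
    rwa [add_sub_cancel_left] at h7
  have h6 : ‖(2 * (Real.pi : ℂ)) ^ (-s)‖ ≤ 1 := by
    have h7 : (2 * (Real.pi : ℂ)) = ((2 * Real.pi : ℝ) : ℂ) := by push_cast; rfl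
    rw [h7, norm_cpow_eq_rpow_re_of_pos (by positivity), neg_re, hre]
    apply Real.rpow_le_one_of_one_le_of_nonpos
    · linarith [Real.pi_gt_three]
    · linarith
  have h7 : ‖cos (Real.pi * s / 2)‖ ≤ Real.exp (Real.pi * |v| / 2) := by
    refine (FE.cos_bound _).trans (le_of_eq ?_)
    have h8 : ((Real.pi : ℂ) * s / 2).im = -(Real.pi * v / 2) := by
      rw [show (Real.pi : ℂ) * s / 2 = ((Real.pi / 2 : ℝ) : ℂ) * s by push_cast; ring,
        im_ofReal_mul, him]
      ring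
    rw [h8, abs_neg, abs_div, abs_mul, abs_of_pos Real.pi_pos, abs_of_pos (by norm_num : (0:ℝ) < 2)]
  have h8 : Real.exp (-(Real.pi * |v| / 2)) * Real.exp (Real.pi * |v| / 2) = 1 := by
    rw [← Real.exp_add, neg_add_cancel, Real.exp_zero]
  rw [h1, riemannZeta_one_sub h2 h3, norm_mul, norm_mul, norm_mul, norm_mul, h4]
  apply mul_le_mul_of_nonneg_right _ (norm_nonneg _)
  have hp : 0 < (2 + |v|) ^ a := Real.rpow_pos_of_pos (by positivity) _
  calc ‖(2 : ℂ)‖ * ‖(2 * (Real.pi : ℂ)) ^ (-s)‖ * ‖Gamma s‖ * ‖cos (Real.pi * s / 2)‖ ≤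
      2 * 1 * (M * (2 + |v|) ^ a * Real.exp (-(Real.pi * |v| / 2))) *
        Real.exp (Real.pi * |v| / 2) := by
        gcongr
        simp
    _ = 2 * M * (2 + |v|) ^ a *
        (Real.exp (-(Real.pi * |v| / 2)) * Real.exp (Real.pi * |v| / 2)) := by ring
    _ = 2 * M * (2 + |v|) ^ a := by rw [h8, mul_one]
    _ ≤ _ := mul_le_mul_of_nonneg_right (le_max_right _ _) hp.le

end Pool.Agent.N799.LG
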