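import Pool.Agent.N799.LG.Def

/-! # Project LG: the hyperbolic kernel (helper415) -/

set_option autoImplicit false

namespace Pool.Agent.N799.LG

open Filter Topology Set MeasureTheory

namespace KerAux

theorem int_abs {f : ℝ → ℝ} (hf : IntegrableOn f (Ioi 0)) : Integrable (fun x => f |x|) := by
  have hf' : IntegrableOn (fun x => f |x|) (Ioi 0) := by
    refine hf.congr_fun (fun x hx => ?_) measurableSet_Ioi
    show f x = f |x|
    rw [abs_of_pos hx]
  have int_Iic : IntegrableOn (fun x ↦ f |x|) (Iic 0) := by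
    rw [← Measure.map_neg_eq_self (volume : Measure ℝ)]
    let m : MeasurableEmbedding fun x : ℝ => -x := (Homeomorph.neg ℝ).measurableEmbedding
    rw [m.integrableOn_map_iff]
    simp_rw [Function.comp_def, abs_neg, neg_preimage, neg_Iic, neg_zero]
    exact Iff.mpr integrableOn_Ici_iff_integrableOn_Ioi hf'
  rw [← integrableOn_univ, ← Iic_union_Ioi (a := (0 : ℝ))]
  exact int_Iic.union hf'

theorem int_exp {c : ℝ} (hc : 0 < c) : Integrable (fun x : ℝ => Real.exp (-c * |x|)) :=
  int_abs (f := fun x => Real.exp (-c * x)) (exp_neg_integrableOn_Ioi 0 hc)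

theorem int_xexp {c : ℝ} (hc : 0 < c) : Integrable (fun x : ℝ => |x| * Real.exp (-c * |x|)) := by
  refine int_abs (f := fun x => x * Real.exp (-c * x)) ?_
  have h := integrableOn_rpow_mul_exp_neg_mul_rpow (p := 1) (s := 1) (b := c) (by norm_num) one_pos hc
  simpa only [Real.rpow_one] using h

theorem val_xexp {c : ℝ} (hc : 0 < c) : ∫ x : ℝ, |x| * Real.exp (-c * |x|) = 2 / c ^ 2 := by
  rw [integral_comp_abs (f := fun x => x * Real.exp (-c * x))]
  have h := integral_rpow_mul_exp_neg_mul_rpow (p := 1) (q := 1) (b := c) one_pos (by norm_num) hc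
  simp only [Real.rpow_one] at h
  rw [h, show ((1 : ℝ) + 1) / 1 = 1 + 1 by norm_num, Real.Gamma_add_one one_ne_zero, Real.Gamma_one,
    show (-(1 + 1 : ℝ) / 1) = ((-2 : ℤ) : ℝ) by norm_num, Real.rpow_intCast, zpow_neg]
  field_simp

theorem cosh_ge (x : ℝ) : Real.exp |x| / 2 ≤ Real.cosh x := by
  rw [Real.cosh_eq]
  rcases le_total 0 x with h | h
  · rw [abs_of_nonneg h]
    have := Real.exp_pos (-x)
    linarith
  · rw [abs_of_nonpos h]
    have := Real.exp_pos x
    linarith

theorem KK_le {a : ℝ} (ha : 0 < a) (u : ℝ) : KK a u ≤ 1 / a * Real.exp (-(Real.pi / (2 * a)) * |u|) := by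
  unfold KK
  have h1 := cosh_ge (Real.pi * u / (2 * a))
  have h2 : |Real.pi * u / (2 * a)| = Real.pi / (2 * a) * |u| := by
    rw [abs_div, abs_mul, abs_of_pos Real.pi_pos, abs_of_pos (show 0 < 2 * a by linarith)]
    ring
  rw [h2] at h1
  have h3 := Real.exp_pos (Real.pi / (2 * a) * |u|)
  rw [neg_mul, Real.exp_neg]
  have h4 : a * Real.exp (Real.pi / (2 * a) * |u|) ≤ 2 * a * Real.cosh (Real.pi * u / (2 * a)) := by
    nlinarith
  calc 1 / (2 * a * Real.cosh (Real.pi * u / (2 * a))) ≤ 1 / (a * Real.exp (Real.pi / (2 * a) * |u|)) :=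
        one_div_le_one_div_of_le (by positivity) h4
    _ = 1 / a * (Real.exp (Real.pi / (2 * a) * |u|))⁻¹ := by field_simp

end KerAux

open KerAux

theorem t_KER : S_KER := by
  intro a ha ha4
  have hpi := Real.pi_pos
  set c : ℝ := Real.pi / (2 * a) with hc
  have hc0 : 0 < c := by positivity
  have hcosh : ∀ x : ℝ, 0 < Real.cosh x := Real.cosh_pos
  have hcont : Continuous (KK a) := by
    unfold KK
    refine Continuous.div continuous_const ?_ fun u => ?_
    · have : Continuous (fun u : ℝ => Real.pi * u / (2 * a)) := by fun_prop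
      exact continuous_const.mul (Real.continuous_cosh.comp this)
    · have := hcosh (Real.pi * u / (2 * a))
      positivity
  have hpos : ∀ u, 0 < KK a u := by
    intro u
    unfold KK
    have := hcosh (Real.pi * u / (2 * a))
    positivity
  have hint : Integrable (KK a) := by
    refine ((int_exp hc0).const_mul (1 / a)).mono' hcont.aestronglyMeasurable ?_
    refine Eventually.of_forall fun u => ?_
    rw [Real.norm_eq_abs, abs_of_pos (hpos u)]
    exact KK_le ha u
  have hval : ∫ u : ℝ, KK a u = 1 := by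
    have hder : ∀ u, HasDerivAt (fun u => 1 / Real.pi * Real.arctan (Real.sinh (c * u))) (KK a u) u := by
      intro u
      have h1 : HasDerivAt (fun u : ℝ => c * u) c u := by
        simpa using (hasDerivAt_id u).const_mul c
      have h2 := ((h1.sinh).arctan).const_mul (1 / Real.pi)
      have h3 : KK a u = 1 / Real.pi * (1 / (1 + Real.sinh (c * u) ^ 2) * (Real.cosh (c * u) * c)) := by
        unfold KK
        have e1 : Real.pi * u / (2 * a) = c * u := by rw [hc]; ring
        have e2 : 1 + Real.sinh (c * u) ^ 2 = Real.cosh (c * u) ^ 2 := by rw [Real.cosh_sq]; ring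
        rw [e1, e2, hc]
        have := (hcosh (c * u)).ne'
        rw [hc] at this
        field_simp
      rw [h3]
      exact h2
    have ht : Tendsto (fun u : ℝ => c * u) atTop atTop := tendsto_id.const_mul_atTop hc0
    have hb : Tendsto (fun u : ℝ => c * u) atBot atBot := tendsto_id.const_mul_atBot hc0
    have hst : Tendsto Real.sinh atTop atTop := by
      refine tendsto_atTop_mono' atTop ?_ tendsto_id
      filter_upwards [eventually_ge_atTop 0] with x hx
      exact Real.self_le_sinh_iff.2 hx
    have hsb : Tendsto Real.sinh atBot atBot := by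
      refine tendsto_atBot_mono' atBot ?_ tendsto_id
      filter_upwards [eventually_le_atBot 0] with x hx
      exact Real.sinh_le_self_iff.2 hx
    have htop : Tendsto (fun u => 1 / Real.pi * Real.arctan (Real.sinh (c * u))) atTop
        (𝓝 (1 / Real.pi * (Real.pi / 2))) :=
      ((tendsto_nhds_of_tendsto_nhdsWithin Real.tendsto_arctan_atTop).comp (hst.comp ht)).const_mul _
    have hbot : Tendsto (fun u => 1 / Real.pi * Real.arctan (Real.sinh (c * u))) atBot
        (𝓝 (1 / Real.pi * (-(Real.pi / 2)))) :=
      ((tendsto_nhds_of_tendsto_nhdsWithin Real.tendsto_arctan_atBot).comp (hsb.comp hb)).const_mul _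
    rw [integral_of_hasDerivAt_of_tendsto hder hint hbot htop]
    field_simp
    norm_num
  have hlog : ∀ u : ℝ, 0 ≤ Real.log (1 + |u|) ∧ Real.log (1 + |u|) ≤ |u| := by
    intro u
    have h0 := abs_nonneg u
    refine ⟨Real.log_nonneg (by linarith), ?_⟩
    have := Real.log_le_sub_one_of_pos (show 0 < 1 + |u| by linarith)
    linarith
  have hle : ∀ u : ℝ, KK a u * Real.log (1 + |u|) ≤ 1 / a * (|u| * Real.exp (-c * |u|)) := by
    intro u
    calc KK a u * Real.log (1 + |u|) ≤ (1 / a * Real.exp (-c * |u|)) * |u| :=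
          mul_le_mul (KK_le ha u) (hlog u).2 (hlog u).1 (by positivity)
      _ = _ := by ring
  have hcl : Continuous (fun u => KK a u * Real.log (1 + |u|)) := by
    refine hcont.mul (Continuous.log (by fun_prop) fun u => ?_)
    have h0 := abs_nonneg u
    linarith
  have hint2 : Integrable (fun u => KK a u * Real.log (1 + |u|)) := by
    refine ((int_xexp hc0).const_mul (1 / a)).mono' hcl.aestronglyMeasurable ?_
    refine Eventually.of_forall fun u => ?_
    rw [Real.norm_eq_abs, abs_of_nonneg (mul_nonneg (hpos u).le (hlog u).1)]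
    exact hle u
  refine ⟨hcont, hint, hval, hpos, ?_, ?_, hint2, ?_⟩
  · intro u
    unfold KK
    rw [show Real.pi * -u / (2 * a) = -(Real.pi * u / (2 * a)) by ring, Real.cosh_neg]
  · intro u hu
    refine (KK_le ha u).trans ?_
    have hu0 : 0 < |u| := by linarith
    have h4a : 1 ≤ 1 / (4 * a) := by
      rw [le_div_iff₀ (by linarith)]; linarith
    have e1 : Real.exp (-(Real.pi / (2 * a)) * |u|)
        = Real.exp (-2 * Real.pi * |u|) * Real.exp (-(2 * Real.pi * |u| * (1 / (4 * a) - 1))) := by
      rw [← Real.exp_add]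
      congr 1
      field_simp
      ring
    set y : ℝ := 2 * Real.pi * |u| * (1 / (4 * a) - 1) with hy
    have hy1 : 1 / (4 * a) - 1 ≤ y := by
      have h1 : 1 ≤ 2 * Real.pi * |u| := by
        have : 3 < Real.pi := Real.pi_gt_three
        nlinarith
      rw [hy]
      nlinarith
    have h5 : 1 / (4 * a) ≤ Real.exp y := by
      have := Real.add_one_le_exp y
      linarith
    have h6 : 1 / (4 * a) * Real.exp (-y) ≤ 1 := by
      rw [Real.exp_neg]
      have := Real.exp_pos y
      rw [← div_eq_mul_inv, div_le_one this]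
      exact h5
    rw [e1]
    calc 1 / a * (Real.exp (-2 * Real.pi * |u|) * Real.exp (-y))
        = 4 * Real.exp (-2 * Real.pi * |u|) * (1 / (4 * a) * Real.exp (-y)) := by field_simp
      _ ≤ 4 * Real.exp (-2 * Real.pi * |u|) * 1 := mul_le_mul_of_nonneg_left h6 (by positivity)
      _ = _ := by ring
  · calc ∫ u : ℝ, KK a u * Real.log (1 + |u|) ≤ ∫ u : ℝ, 1 / a * (|u| * Real.exp (-c * |u|)) :=
          integral_mono hint2 ((int_xexp hc0).const_mul (1 / a)) hle
      _ = 1 / a * (2 / c ^ 2) := by rw [integral_const_mul, val_xexp hc0]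
      _ = 8 * a / Real.pi ^ 2 := by rw [hc]; field_simp; ring
      _ ≤ 1 := by
        rw [div_le_one (by positivity)]
        have : 3 < Real.pi := Real.pi_gt_three
        nlinarith

end Pool.Agent.N799.LG
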