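import Mathlib
import Pool.Agent.N799.LG.Def

set_option autoImplicit false

/-! # LG/M1: the moments of zeta are bounded by the moments of the geometric means (helper615) -/

namespace Pool.Agent.N799.LG

open Filter Topology Set MeasureTheory

namespace M1

/-- Jensen's inequality for the exponential function and a density -/
theorem jensen {φ K : ℝ → ℝ} (hK0 : ∀ u, 0 ≤ K u) (hK : Integrable K) (hK1 : ∫ u, K u = 1)
    (hφ : Integrable fun u => φ u * K u) :
    ENNReal.ofReal (Real.exp (∫ u, φ u * K u)) ≤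
      ∫⁻ u, ENNReal.ofReal (Real.exp (φ u)) * ENNReal.ofReal (K u) := by
  obtain ⟨y, hy⟩ : ∃ y, y = ∫ u, φ u * K u := ⟨_, rfl⟩
  have h1 : Integrable fun u => Real.exp y * (1 - y) * K u + Real.exp y * (φ u * K u) :=
    (hK.const_mul _).add (hφ.const_mul _)
  have h2 : ∫ u, (Real.exp y * (1 - y) * K u + Real.exp y * (φ u * K u)) = Real.exp y := by
    rw [integral_add (hK.const_mul _) (hφ.const_mul _), integral_const_mul, integral_const_mul, hK1,
      ← hy]
    ring
  rw [← hy, ← h2]
  have h3 : ∫ u, (Real.exp y * (1 - y) * K u + Real.exp y * (φ u * K u)) ≤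
      ∫ u, max (Real.exp y * (1 - y) * K u + Real.exp y * (φ u * K u)) 0 :=
    integral_mono h1 h1.pos_part fun u => le_max_left _ _
  refine (ENNReal.ofReal_le_ofReal h3).trans ?_
  rw [ofReal_integral_eq_lintegral_ofReal h1.pos_part (Eventually.of_forall fun u => le_max_right _ _)]
  refine lintegral_mono fun u => ?_
  rw [← ENNReal.ofReal_mul (Real.exp_pos _).le]
  refine ENNReal.ofReal_le_ofReal (max_le ?_ (mul_nonneg (Real.exp_pos _).le (hK0 u)))
  have h4 : Real.exp y * (1 - y + φ u) ≤ Real.exp (φ u) := by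
    have h5 := Real.add_one_le_exp (φ u - y)
    have h6 : Real.exp (φ u) = Real.exp y * Real.exp (φ u - y) := by
      rw [← Real.exp_add]
      congr 1
      ring
    rw [h6]
    refine mul_le_mul_of_nonneg_left ?_ (Real.exp_pos _).le
    linarith
  have h7 := mul_le_mul_of_nonneg_right h4 (hK0 u)
  linarith

/-- the exponential of the positive part of the mean -/
noncomputable def E (k a w : ℝ) : ENNReal := ENNReal.ofReal (Real.exp (2 * k * max (GG a w) 0))

theorem E_meas (h : ∀ a : ℝ, Measurable (GG a)) (k a : ℝ) : Measurable (E k a) :=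
  (Real.measurable_exp.comp (((h a).max measurable_const).const_mul (2 * k))).ennreal_ofReal

/-- the pointwise bound -/
theorem point {C : ℝ} {k a t : ℝ} (hk : 0 < k) (hK0 : ∀ u, 0 ≤ KK a u) (hK : Integrable (KK a))
    (hK1 : ∫ u, KK a u = 1)
    (hint : Integrable (fun u : ℝ => max (GG a (t + u)) 0 * KK a u))
    (hL : L 0 t ≤ C + a / 2 * Real.log (2 + |t|) + ∫ u : ℝ, max (GG a (t + u)) 0 * KK a u) :
    ENNReal.ofReal (‖riemannZeta ⟨1 / 2, t⟩‖ ^ (2 * k)) ≤
      ENNReal.ofReal (Real.exp (2 * k * C) * (2 + |t|) ^ (k * a)) *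
        ∫⁻ u, E k a (t + u) * ENNReal.ofReal (KK a u) := by
  by_cases hz : riemannZeta ⟨1 / 2, t⟩ = 0
  · rw [hz, norm_zero, Real.zero_rpow (by positivity), ENNReal.ofReal_zero]
    exact zero_le
  · have hz' : 0 < ‖riemannZeta ⟨1 / 2, t⟩‖ := norm_pos_iff.2 hz
    have h1 : ‖riemannZeta ⟨1 / 2, t⟩‖ ^ (2 * k) = Real.exp (2 * k * L 0 t) := by
      rw [Real.rpow_def_of_pos hz']
      unfold L
      rw [add_zero]
      congr 1
      ring
    have h2 : Integrable fun u => (2 * k * max (GG a (t + u)) 0) * KK a u := by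
      have := hint.const_mul (2 * k)
      refine this.congr (Eventually.of_forall fun u => ?_)
      beta_reduce
      ring
    have h3 : ∫ u, (2 * k * max (GG a (t + u)) 0) * KK a u =
        2 * k * ∫ u : ℝ, max (GG a (t + u)) 0 * KK a u := by
      rw [← integral_const_mul]
      refine integral_congr_ae (Eventually.of_forall fun u => ?_)
      beta_reduce
      ring
    have h4 := jensen hK0 hK hK1 h2
    have ht : 0 < 2 + |t| := by positivity
    have h5 : Real.exp (2 * k * L 0 t) ≤ (Real.exp (2 * k * C) * (2 + |t|) ^ (k * a)) *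
        Real.exp (∫ u, (2 * k * max (GG a (t + u)) 0) * KK a u) := by
      rw [Real.rpow_def_of_pos ht, ← Real.exp_add, ← Real.exp_add, h3]
      refine Real.exp_le_exp.2 ?_
      have h6 := mul_le_mul_of_nonneg_left hL (show 0 ≤ 2 * k by positivity)
      linarith
    rw [h1]
    refine (ENNReal.ofReal_le_ofReal h5).trans ?_
    rw [ENNReal.ofReal_mul (by positivity)]
    exact mul_le_mul' le_rfl h4

theorem exp_abs_int : Integrable fun x : ℝ => Real.exp (-|x|) := by
  refine Integrable.of_integral_ne_zero ?_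
  rw [integral_comp_abs (f := fun x => Real.exp (-x)), integral_exp_neg_Ioi_zero]
  norm_num

/-- a power against the exponential function -/
theorem pow_exp {p x : ℝ} (hp : 0 < p) (hx : 0 ≤ x) :
    (1 + x) ^ p ≤ Real.exp (1 - p + p * Real.log p) * Real.exp x := by
  have h0 : 0 < 1 + x := by linarith
  rw [Real.rpow_def_of_pos h0, ← Real.exp_add]
  refine Real.exp_le_exp.2 ?_
  have h1 := Real.log_le_sub_one_of_pos (show 0 < (1 + x) / p by positivity)
  rw [Real.log_div h0.ne' hp.ne'] at h1
  have h2 := mul_le_mul_of_nonneg_left h1 hp.le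
  have h3 : p * ((1 + x) / p) = 1 + x := by field_simp
  nlinarith

/-- the bound for the inner integral -/
theorem inner_bd {k a T CU : ℝ} (hk : 0 < k) (hT : 1 ≤ T) (hCU : 0 < CU)
    (hm : ∀ a : ℝ, Measurable (GG a)) (hev : ∀ t : ℝ, GG a (-t) = GG a t)
    (hup : ∀ t : ℝ, GG a t ≤ CU * (1 + Real.log (1 + |t|))) (u : ℝ) :
    ∫⁻ t in Ioc 0 T, E k a (t + u) ≤ 2 * (∫⁻ t in Icc 0 (2 * T), E k a t) +
      (if 1 ≤ |u| then ENNReal.ofReal T * ENNReal.ofReal (Real.exp (2 * k * CU) *
        (1 + 2 * |u|) ^ (2 * k * CU)) else 0) := by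
  have hEm := E_meas hm k a
  by_cases hu : |u| ≤ T
  · refine le_trans ?_ le_self_add
    have h1 : ∫⁻ t in Ioc 0 T, E k a (t + u) ≤
        ∫⁻ t, (Icc (-(2 * T)) (2 * T)).indicator (E k a) (t + u) := by
      rw [← lintegral_indicator measurableSet_Ioc]
      refine lintegral_mono fun t => ?_
      by_cases ht : t ∈ Ioc 0 T
      · have h2 : t + u ∈ Icc (-(2 * T)) (2 * T) := by
          have h3 := abs_le.1 hu
          exact ⟨by linarith [ht.1], by linarith [ht.2]⟩
        rw [indicator_of_mem ht, indicator_of_mem h2]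
      · rw [indicator_of_notMem ht]
        exact zero_le
    refine h1.trans ?_
    rw [lintegral_add_right_eq_self (fun w => (Icc (-(2 * T)) (2 * T)).indicator (E k a) w) u,
      lintegral_indicator measurableSet_Icc]
    have h2 : Icc (-(2 * T)) (2 * T) ⊆ Icc (-(2 * T)) 0 ∪ Icc 0 (2 * T) := by
      intro x hx
      rcases le_total x 0 with h3 | h3
      · exact Or.inl ⟨hx.1, h3⟩
      · exact Or.inr ⟨h3, hx.2⟩
    have h3 : ∫⁻ t in Icc (-(2 * T)) 0, E k a t = ∫⁻ t in Icc 0 (2 * T), E k a t := by
      have h4 := (Measure.measurePreserving_neg (volume : Measure ℝ)).setLIntegral_comp_preimage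
        (measurableSet_Icc (a := (0 : ℝ)) (b := 2 * T)) hEm
      rw [← h4]
      have h5 : (Neg.neg : ℝ → ℝ) ⁻¹' Icc 0 (2 * T) = Icc (-(2 * T)) 0 := by
        ext x
        rw [mem_preimage, mem_Icc, mem_Icc]
        constructor
        · rintro ⟨h6, h7⟩
          exact ⟨by linarith, by linarith⟩
        · rintro ⟨h6, h7⟩
          exact ⟨by linarith, by linarith⟩
      rw [h5]
      refine lintegral_congr fun x => ?_
      unfold E
      rw [hev]
    calc _ ≤ ∫⁻ t in Icc (-(2 * T)) 0 ∪ Icc 0 (2 * T), E k a t := lintegral_mono_set h2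
      _ ≤ (∫⁻ t in Icc (-(2 * T)) 0, E k a t) + ∫⁻ t in Icc 0 (2 * T), E k a t :=
          lintegral_union_le _ _ _
      _ = 2 * ∫⁻ t in Icc 0 (2 * T), E k a t := by
          rw [h3]
          exact (two_mul _).symm
  · rw [not_le] at hu
    have hu1 : 1 ≤ |u| := hT.trans hu.le
    rw [if_pos hu1]
    refine le_trans ?_ le_add_self
    have h1 : ∀ t ∈ Ioc 0 T, E k a (t + u) ≤
        ENNReal.ofReal (Real.exp (2 * k * CU) * (1 + 2 * |u|) ^ (2 * k * CU)) := by
      intro t ht
      unfold E
      refine ENNReal.ofReal_le_ofReal ?_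
      have h2 : |t + u| ≤ 2 * |u| := by
        have h3 := abs_add_le t u
        have h4 : |t| ≤ |u| := by
          rw [abs_of_pos ht.1]
          exact ht.2.trans hu.le
        linarith
      have h5 : 0 < 1 + |t + u| := by positivity
      have h6 : Real.log (1 + |t + u|) ≤ Real.log (1 + 2 * |u|) :=
        Real.log_le_log h5 (by linarith)
      have h7 : 0 ≤ Real.log (1 + 2 * |u|) := Real.log_nonneg (by linarith [abs_nonneg u])
      have h8 : max (GG a (t + u)) 0 ≤ CU * (1 + Real.log (1 + 2 * |u|)) := by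
        refine max_le ((hup _).trans ?_) (by positivity)
        exact mul_le_mul_of_nonneg_left (by linarith) hCU.le
      rw [Real.rpow_def_of_pos (show 0 < 1 + 2 * |u| by positivity), ← Real.exp_add]
      refine Real.exp_le_exp.2 ?_
      have h9 := mul_le_mul_of_nonneg_left h8 (show 0 ≤ 2 * k by positivity)
      linarith
    refine (setLIntegral_mono' measurableSet_Ioc h1).trans ?_
    rw [lintegral_const, Measure.restrict_apply_univ, Real.volume_Ioc, sub_zero, mul_comm]

end M1

open M1

theorem t_M1 (h1 : S_PT) (h2 : S_UP) (h3 : S_KER) : S_M1 := by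
  obtain ⟨CP, hCP, hPT⟩ := h1
  obtain ⟨hev, hm, CU, hCU, hup⟩ := h2
  intro k hk
  -- the tail constant
  obtain ⟨p, hp⟩ : ∃ p, p = 2 * k * CU := ⟨_, rfl⟩
  have hp0 : 0 < p := by rw [hp]; positivity
  obtain ⟨J, hJ⟩ : ∃ J : ℝ, J = 4 * (Real.exp p * Real.exp (1 - p + p * Real.log p)) *
      ∫ x : ℝ, Real.exp (-|x|) := ⟨_, rfl⟩
  have hJ0 : 0 ≤ J := by
    rw [hJ]
    have : 0 ≤ ∫ x : ℝ, Real.exp (-|x|) := integral_nonneg fun x => (Real.exp_pos _).le
    positivity
  refine ⟨Real.exp (2 * k * CP) * 3 ^ k * (4 + J), by positivity, fun a T ha ha4 hT => ?_⟩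
  obtain ⟨hKc, hKi, hK1, hKp, -, hKt, -, -⟩ := h3 a ha ha4
  have hT0 : 0 < T := by linarith
  -- the right side
  have hGi : IntervalIntegrable (fun t => Real.exp (2 * k * GG a t)) volume 0 (2 * T) := by
    rw [intervalIntegrable_iff_integrableOn_Ioc_of_le (by linarith)]
    refine Measure.integrableOn_of_bounded (M := Real.exp (2 * k * (CU * (1 + Real.log (1 + 2 * T)))))
      (by rw [Real.volume_Ioc]; exact ENNReal.ofReal_ne_top)
      (Real.measurable_exp.comp ((hm a).const_mul (2 * k))).aestronglyMeasurable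
      ((ae_restrict_iff' measurableSet_Ioc).2 (Eventually.of_forall fun t ht => ?_))
    rw [Real.norm_eq_abs, abs_of_pos (Real.exp_pos _)]
    refine Real.exp_le_exp.2 (mul_le_mul_of_nonneg_left ((hup a ha ha4 t).trans
      (mul_le_mul_of_nonneg_left ?_ hCU.le)) (by positivity))
    have h4 : |t| ≤ 2 * T := by
      rw [abs_of_pos ht.1]
      exact ht.2
    have h5 := Real.log_le_log (show 0 < 1 + |t| by positivity) (show 1 + |t| ≤ 1 + 2 * T by linarith)
    linarith
  obtain ⟨I2, hI2⟩ : ∃ I2, I2 = ∫ t in (0 : ℝ)..(2 * T), Real.exp (2 * k * GG a t) := ⟨_, rfl⟩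
  have hI20 : 0 ≤ I2 := by
    rw [hI2]
    exact intervalIntegral.integral_nonneg (by linarith) fun t _ => (Real.exp_pos _).le
  rw [← hI2]
  have hA : ∫⁻ t in Icc 0 (2 * T), E k a t ≤ ENNReal.ofReal (2 * T + I2) := by
    have h4 : ∀ t, E k a t ≤ 1 + ENNReal.ofReal (Real.exp (2 * k * GG a t)) := by
      intro t
      unfold E
      rw [← ENNReal.ofReal_one, ← ENNReal.ofReal_add zero_le_one (Real.exp_pos _).le]
      refine ENNReal.ofReal_le_ofReal ?_
      rcases le_total (GG a t) 0 with h5 | h5
      · rw [max_eq_right h5, mul_zero, Real.exp_zero]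
        linarith [Real.exp_pos (2 * k * GG a t)]
      · rw [max_eq_left h5]
        linarith
    refine (lintegral_mono h4).trans ?_
    rw [lintegral_add_left measurable_const, lintegral_const, Measure.restrict_apply_univ,
      Real.volume_Icc, sub_zero, one_mul, ENNReal.ofReal_add (by positivity) hI20]
    refine add_le_add le_rfl (le_of_eq ?_)
    rw [hI2, intervalIntegral.integral_of_le (by linarith), ← integral_Icc_eq_integral_Ioc,
      ofReal_integral_eq_lintegral_ofReal _ (Eventually.of_forall fun t => (Real.exp_pos _).le)]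
    rw [intervalIntegrable_iff_integrableOn_Ioc_of_le (by linarith)] at hGi
    exact (integrableOn_Icc_iff_integrableOn_Ioc).2 hGi
  -- the double integral
  have hdouble : ∫⁻ t in Ioc 0 T, ∫⁻ u, E k a (t + u) * ENNReal.ofReal (KK a u) ≤
      ENNReal.ofReal (2 * (2 * T + I2) + T * J) := by
    have hEm := E_meas hm k a
    rw [lintegral_lintegral_swap]
    · have h4 : ∀ u, ∫⁻ t in Ioc 0 T, E k a (t + u) * ENNReal.ofReal (KK a u) ≤
          2 * ENNReal.ofReal (2 * T + I2) * ENNReal.ofReal (KK a u) +
          ENNReal.ofReal T * ENNReal.ofReal (4 * (Real.exp p *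
            Real.exp (1 - p + p * Real.log p)) * Real.exp (-|u|)) := by
        intro u
        have hcm : Measurable fun t => E k a (t + u) := hEm.comp (measurable_id.add_const u)
        rw [lintegral_mul_const _ hcm]
        refine (mul_le_mul' (inner_bd hk hT hCU hm (hev a) (hup a ha ha4) u) le_rfl).trans ?_
        rw [add_mul]
        refine add_le_add (mul_le_mul' (mul_le_mul' le_rfl hA) le_rfl) ?_
        split_ifs with hu
        · rw [mul_assoc, ← ENNReal.ofReal_mul (by positivity)]
          refine mul_le_mul' le_rfl (ENNReal.ofReal_le_ofReal ?_)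
          rw [← hp]
          have h5 := pow_exp hp0 (show 0 ≤ 2 * |u| by positivity)
          have h6 := hKt u hu
          have h7 : Real.exp (2 * |u|) * Real.exp (-2 * Real.pi * |u|) ≤ Real.exp (-|u|) := by
            rw [← Real.exp_add]
            refine Real.exp_le_exp.2 ?_
            nlinarith [Real.pi_gt_three, abs_nonneg u]
          calc Real.exp p * (1 + 2 * |u|) ^ p * KK a u
              ≤ Real.exp p * (Real.exp (1 - p + p * Real.log p) * Real.exp (2 * |u|)) *
                (4 * Real.exp (-2 * Real.pi * |u|)) := by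
                have := (hKp u).le
                gcongr
            _ = 4 * (Real.exp p * Real.exp (1 - p + p * Real.log p)) *
                (Real.exp (2 * |u|) * Real.exp (-2 * Real.pi * |u|)) := by ring
            _ ≤ _ := mul_le_mul_of_nonneg_left h7 (by positivity)
        · rw [zero_mul]
          exact zero_le
      refine (lintegral_mono h4).trans ?_
      rw [lintegral_add_left (hKc.measurable.ennreal_ofReal.const_mul _),
        lintegral_const_mul _ hKc.measurable.ennreal_ofReal,
        lintegral_const_mul' _ _ ENNReal.ofReal_ne_top,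
        ← ofReal_integral_eq_lintegral_ofReal hKi (Eventually.of_forall fun u => (hKp u).le), hK1,
        ← ofReal_integral_eq_lintegral_ofReal (exp_abs_int.const_mul _)
          (Eventually.of_forall fun u => by positivity), integral_const_mul, ← hJ,
        ENNReal.ofReal_one, mul_one, ← ENNReal.ofReal_mul hT0.le]
      have h5 : ENNReal.ofReal (2 * (2 * T + I2) + T * J) =
          2 * ENNReal.ofReal (2 * T + I2) + ENNReal.ofReal (T * J) := by
        rw [ENNReal.ofReal_add (by positivity) (by positivity),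
          ENNReal.ofReal_mul (p := 2) (by norm_num), ENNReal.ofReal_ofNat]
      rw [h5]
    · refine Measurable.aemeasurable ?_
      exact (hEm.comp (measurable_fst.add measurable_snd)).mul
        (hKc.measurable.ennreal_ofReal.comp measurable_snd)
  -- the final estimate
  have hcont : Continuous fun t : ℝ => ‖riemannZeta ⟨1 / 2, t⟩‖ ^ (2 * k) := by
    have h4 : Continuous fun t : ℝ => riemannZeta ⟨1 / 2, t⟩ := by
      rw [continuous_iff_continuousAt]
      intro t
      have h5 : (⟨1 / 2, t⟩ : ℂ) ≠ 1 := by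
        intro h
        have h6 := congrArg Complex.re h
        norm_num at h6
      have h7 : ContinuousAt (fun t : ℝ => (⟨1 / 2, t⟩ : ℂ)) t := by
        have h8 : (fun t : ℝ => (⟨1 / 2, t⟩ : ℂ)) = fun t : ℝ => (1 / 2 : ℂ) + (t : ℂ) * Complex.I := by
          funext t
          apply Complex.ext
          · simp
          · simp
        rw [h8]
        fun_prop
      exact ContinuousAt.comp (f := fun t : ℝ => (⟨1 / 2, t⟩ : ℂ)) (g := riemannZeta)
        (differentiableAt_riemannZeta h5).continuousAt h7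
    exact h4.norm.rpow_const fun t => Or.inr (by positivity)
  have hlhs : ENNReal.ofReal (∫ t in (0 : ℝ)..T, ‖riemannZeta ⟨1 / 2, t⟩‖ ^ (2 * k)) ≤
      ENNReal.ofReal (Real.exp (2 * k * CP) * (3 ^ k * T ^ (k * a)) *
        (2 * (2 * T + I2) + T * J)) := by
    rw [intervalIntegral.integral_of_le hT0.le, ofReal_integral_eq_lintegral_ofReal
      (hcont.integrableOn_Ioc) (Eventually.of_forall fun t => by positivity)]
    have h4 : ∀ t ∈ Ioc 0 T, ENNReal.ofReal (‖riemannZeta ⟨1 / 2, t⟩‖ ^ (2 * k)) ≤
        ENNReal.ofReal (Real.exp (2 * k * CP) * (3 ^ k * T ^ (k * a))) *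
          ∫⁻ u, E k a (t + u) * ENNReal.ofReal (KK a u) := by
      intro t ht
      obtain ⟨h5, h6⟩ := hPT a ha ha4 t
      refine (point hk (fun u => (hKp u).le) hKi hK1 h5 h6).trans
        (mul_le_mul' (ENNReal.ofReal_le_ofReal ?_) le_rfl)
      refine mul_le_mul_of_nonneg_left ?_ (Real.exp_pos _).le
      have h7 : 2 + |t| ≤ 3 * T := by
        rw [abs_of_pos ht.1]
        linarith [ht.2]
      calc (2 + |t|) ^ (k * a) ≤ (3 * T) ^ (k * a) :=
            Real.rpow_le_rpow (by positivity) h7 (by positivity)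
        _ = 3 ^ (k * a) * T ^ (k * a) := Real.mul_rpow (by norm_num) hT0.le
        _ ≤ 3 ^ k * T ^ (k * a) := by
            refine mul_le_mul_of_nonneg_right ?_ (by positivity)
            exact Real.rpow_le_rpow_of_exponent_le (by norm_num) (by nlinarith)
    refine (setLIntegral_mono' measurableSet_Ioc h4).trans ?_
    rw [lintegral_const_mul' _ _ ENNReal.ofReal_ne_top,
      ENNReal.ofReal_mul (show 0 ≤ Real.exp (2 * k * CP) * (3 ^ k * T ^ (k * a)) by positivity)]
    exact mul_le_mul' le_rfl hdouble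
  have hfin := (ENNReal.ofReal_le_ofReal_iff (by positivity)).1 hlhs
  refine hfin.trans ?_
  have h4 : 2 * (2 * T + I2) + T * J ≤ (4 + J) * (T + I2) := by nlinarith
  calc Real.exp (2 * k * CP) * (3 ^ k * T ^ (k * a)) * (2 * (2 * T + I2) + T * J)
      ≤ Real.exp (2 * k * CP) * (3 ^ k * T ^ (k * a)) * ((4 + J) * (T + I2)) :=
        mul_le_mul_of_nonneg_left h4 (by positivity)
    _ = _ := by ring

end Pool.Agent.N799.LG
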