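import Pool.Agent.N799.LG.Def

/-!
Project LG (helper799), task M2: the moments of the geometric means are bounded by the moments of zeta.
-/

set_option autoImplicit false

namespace Pool.Agent.N799.LG

open Filter Topology Set MeasureTheory

namespace M2

/-- the modulus on the critical line -/
noncomputable def nz (v : ℝ) : ℝ := ‖riemannZeta ⟨1 / 2, v⟩‖

theorem nz_nonneg (v : ℝ) : 0 ≤ nz v := norm_nonneg _

theorem nz_cont : Continuous nz := by
  unfold nz
  apply Continuous.norm
  rw [continuous_iff_continuousAt]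
  intro v
  have h1 : (⟨1 / 2, v⟩ : ℂ) ≠ 1 := by
    intro h
    have := congrArg Complex.re h
    norm_num at this
  have h2 : ContinuousAt (fun v : ℝ => (⟨1 / 2, v⟩ : ℂ)) v := by
    have e : (fun v : ℝ => (⟨1 / 2, v⟩ : ℂ)) =
        fun v : ℝ => ((1 / 2 : ℝ) : ℂ) + v * Complex.I := by
      funext v
      apply Complex.ext <;> simp
    rw [e]
    fun_prop
  exact ContinuousAt.comp (f := fun v : ℝ => (⟨1 / 2, v⟩ : ℂ)) (g := riemannZeta)
    (differentiableAt_riemannZeta h1).continuousAt h2

theorem nz_even (v : ℝ) : nz (-v) = nz v := by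
  unfold nz
  have e : (⟨1 / 2, -v⟩ : ℂ) = (starRingEnd ℂ) ⟨1 / 2, v⟩ := by
    apply Complex.ext <;> simp
  rw [e, riemannZeta_conj, Complex.norm_conj]

theorem L_eq (v : ℝ) : L 0 v = Real.log (nz v) := by
  unfold L nz
  rw [add_zero]

theorem max_log (v : ℝ) : max (L 0 v) 0 = Real.log (max (nz v) 1) := by
  rw [L_eq]
  rcases le_total (nz v) 1 with h | h
  · rw [max_eq_right (Real.log_nonpos (nz_nonneg v) h), max_eq_right h, Real.log_one]
  · rw [max_eq_left (Real.log_nonneg h), max_eq_left h]

theorem exp_log {k : ℝ} (v : ℝ) :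
    Real.exp (2 * k * Real.log (max (nz v) 1)) ≤ 1 + nz v ^ (2 * k) := by
  rcases le_total (nz v) 1 with h | h
  · rw [max_eq_right h, Real.log_one, mul_zero, Real.exp_zero]
    have := Real.rpow_nonneg (nz_nonneg v) (2 * k)
    linarith
  · rw [max_eq_left h, mul_comm, ← Real.rpow_def_of_pos (by linarith)]
    linarith

/-- the kernel -/
noncomputable def pker (a u : ℝ) : ℝ := a / Real.pi / (a ^ 2 + u ^ 2)

theorem pker_nonneg {a : ℝ} (ha : 0 < a) (u : ℝ) : 0 ≤ pker a u := by
  unfold pker
  have := Real.pi_pos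
  positivity

theorem pker_cont {a : ℝ} (ha : 0 < a) : Continuous (pker a) := by
  unfold pker
  refine continuous_const.div (by fun_prop) fun u => ?_
  positivity

theorem pker_mass {a : ℝ} (ha : 0 < a) : 0 ≤ ∫ u in (-1 : ℝ)..1, pker a u ∧
    ∫ u in (-1 : ℝ)..1, pker a u ≤ 1 := by
  refine ⟨intervalIntegral.integral_nonneg (by norm_num) fun u _ => pker_nonneg ha u, ?_⟩
  have hd : ∀ u : ℝ, HasDerivAt (fun u : ℝ => Real.arctan (u / a) / Real.pi) (pker a u) u := by
    intro u
    have h1 : HasDerivAt (fun u : ℝ => u / a) (1 / a) u := (hasDerivAt_id' u).div_const a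
    have h2 := (h1.arctan).div_const Real.pi
    have e : 1 / (1 + (u / a) ^ 2) * (1 / a) / Real.pi = pker a u := by
      unfold pker
      have h3 : (0 : ℝ) < a ^ 2 + u ^ 2 := by positivity
      field_simp
    rw [e] at h2
    exact h2
  rw [intervalIntegral.integral_eq_sub_of_hasDerivAt (fun u _ => hd u)
    ((pker_cont ha).intervalIntegrable _ _)]
  have h1 := Real.arctan_lt_pi_div_two (1 / a)
  have h2 := Real.neg_pi_div_two_lt_arctan (-1 / a)
  rw [← sub_div, div_le_one Real.pi_pos]
  linarith

/-- Jensen for a measure of mass at most one -/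
theorem jensen {a : ℝ} (ha : 0 < a) {f : ℝ → ℝ} (hf : Continuous f) :
    Real.exp (∫ u in (-1 : ℝ)..1, f u * pker a u) ≤
      1 + ∫ u in (-1 : ℝ)..1, Real.exp (f u) * pker a u := by
  obtain ⟨Y, hY⟩ : ∃ Y, Y = ∫ u in (-1 : ℝ)..1, f u * pker a u := ⟨_, rfl⟩
  obtain ⟨m, hm⟩ : ∃ m, m = ∫ u in (-1 : ℝ)..1, pker a u := ⟨_, rfl⟩
  obtain ⟨hm0, hm1⟩ := pker_mass ha
  rw [← hm] at hm0 hm1
  have hk := pker_cont ha
  have i1 : IntervalIntegrable (fun u => f u * pker a u) volume (-1) 1 :=
    (hf.mul hk).intervalIntegrable _ _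
  have i2 : IntervalIntegrable (pker a) volume (-1) 1 := hk.intervalIntegrable _ _
  have h1 : ∫ u in (-1 : ℝ)..1, Real.exp Y * ((1 - Y) * pker a u + f u * pker a u) ≤
      ∫ u in (-1 : ℝ)..1, Real.exp (f u) * pker a u := by
    refine intervalIntegral.integral_mono_on (by norm_num) ?_ ?_ fun u _ => ?_
    · exact Continuous.intervalIntegrable (by fun_prop) _ _
    · exact Continuous.intervalIntegrable (by fun_prop) _ _
    · have h2 := Real.add_one_le_exp (f u - Y)
      have h3 : Real.exp (f u) = Real.exp Y * Real.exp (f u - Y) := by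
        rw [← Real.exp_add]
        congr 1
        ring
      have h4 : Real.exp Y * (f u - Y + 1) ≤ Real.exp (f u) := by
        rw [h3]
        exact mul_le_mul_of_nonneg_left h2 (Real.exp_pos _).le
      have h5 := mul_le_mul_of_nonneg_right h4 (pker_nonneg ha u)
      refine le_trans (le_of_eq ?_) h5
      ring
  rw [intervalIntegral.integral_const_mul, intervalIntegral.integral_add (i2.const_mul _) i1,
    intervalIntegral.integral_const_mul, ← hY, ← hm] at h1
  have h2 : (1 - Y) * Real.exp Y ≤ 1 := by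
    have h3 := Real.add_one_le_exp (-Y)
    have h4 := mul_le_mul_of_nonneg_right h3 (Real.exp_pos Y).le
    rw [← Real.exp_add, neg_add_cancel, Real.exp_zero] at h4
    linarith
  rw [← hY]
  have h3 : (1 - Y) * Real.exp Y * (1 - m) ≤ 1 := by
    have h4 := mul_le_mul_of_nonneg_right h2 (sub_nonneg.2 hm1)
    linarith
  nlinarith

/-- the swapped double integral -/
theorem double {a k T : ℝ} (ha : 0 < a) (hk : 0 < k) (hT : 1 ≤ T) :
    ∫ t in (0 : ℝ)..T, (∫ u in (-1 : ℝ)..1, nz (t + u) ^ (2 * k) * pker a u) ≤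
      2 * ∫ t in (0 : ℝ)..(2 * T), nz t ^ (2 * k) := by
  have hZ : Continuous fun v => nz v ^ (2 * k) :=
    nz_cont.rpow_const fun _ => Or.inr (by positivity)
  have hZ0 : ∀ v, 0 ≤ nz v ^ (2 * k) := fun v => Real.rpow_nonneg (nz_nonneg v) _
  have hker := pker_cont ha
  obtain ⟨Z, hZdef⟩ : ∃ Z : ℝ → ℝ, Z = fun v => nz v ^ (2 * k) := ⟨_, rfl⟩
  have e0 : ∀ v, nz v ^ (2 * k) = Z v := fun v => by rw [hZdef]
  simp only [e0]
  rw [← hZdef] at hZ
  simp only [e0] at hZ0
  have heven : ∀ v, Z (-v) = Z v := fun v => by rw [hZdef]; simp only [nz_even]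
  obtain ⟨W, hW⟩ : ∃ W, W = ∫ t in (0 : ℝ)..(2 * T), Z t := ⟨_, rfl⟩
  have hc : Continuous (Function.uncurry fun t u : ℝ => Z (t + u) * pker a u) := by
    show Continuous fun q : ℝ × ℝ => Z (q.1 + q.2) * pker a q.2
    exact (hZ.comp (continuous_fst.add continuous_snd)).mul (hker.comp continuous_snd)
  have hswap : ∫ t in (0 : ℝ)..T, (∫ u in (-1 : ℝ)..1, Z (t + u) * pker a u) =
      ∫ u in (-1 : ℝ)..1, ∫ t in (0 : ℝ)..T, Z (t + u) * pker a u := by
    refine intervalIntegral_intervalIntegral_swap ?_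
    exact (hc.continuousOn.integrableOn_compact
      (isCompact_uIcc.prod isCompact_uIcc)).mono_set
      (Set.prod_mono uIoc_subset_uIcc uIoc_subset_uIcc)
  rw [hswap]
  have hin : ∀ u ∈ Icc (-1 : ℝ) 1, ∫ t in (0 : ℝ)..T, Z (t + u) * pker a u ≤
      2 * W * pker a u := by
    intro u hu
    rw [intervalIntegral.integral_mul_const]
    refine mul_le_mul_of_nonneg_right ?_ (pker_nonneg ha u)
    rw [intervalIntegral.integral_comp_add_right (fun t => Z t) u]
    have h1 : ∫ t in (0 + u)..(T + u), Z t ≤ ∫ t in (-1 : ℝ)..(T + 1), Z t := by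
      refine intervalIntegral.integral_mono_interval (by linarith [hu.1]) (by linarith)
        (by linarith [hu.2]) (Eventually.of_forall fun v => hZ0 v) (hZ.intervalIntegrable _ _)
    have h2 : ∫ t in (-1 : ℝ)..(T + 1), Z t = (∫ t in (-1 : ℝ)..0, Z t) +
        ∫ t in (0 : ℝ)..(T + 1), Z t :=
      (intervalIntegral.integral_add_adjacent_intervals (hZ.intervalIntegrable _ _)
        (hZ.intervalIntegrable _ _)).symm
    have h3 : ∫ t in (-1 : ℝ)..0, Z t = ∫ t in (0 : ℝ)..1, Z t := by
      have h4 := intervalIntegral.integral_comp_neg (a := 0) (b := 1) (fun t => Z t)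
      simp only [heven, neg_zero] at h4
      exact h4.symm
    have h5 : ∫ t in (0 : ℝ)..1, Z t ≤ W := by
      rw [hW]
      exact intervalIntegral.integral_mono_interval le_rfl (by norm_num) (by linarith)
        (Eventually.of_forall fun v => hZ0 v) (hZ.intervalIntegrable _ _)
    have h6 : ∫ t in (0 : ℝ)..(T + 1), Z t ≤ W := by
      rw [hW]
      exact intervalIntegral.integral_mono_interval le_rfl (by linarith) (by linarith)
        (Eventually.of_forall fun v => hZ0 v) (hZ.intervalIntegrable _ _)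
    linarith
  have hW0 : 0 ≤ W := by
    rw [hW]
    exact intervalIntegral.integral_nonneg (by linarith) fun v _ => hZ0 v
  have hcs : Continuous fun u => ∫ t in (0 : ℝ)..T, Z (t + u) * pker a u := by
    refine intervalIntegral.continuous_parametric_intervalIntegral_of_continuous' ?_ 0 T
    show Continuous fun q : ℝ × ℝ => Z (q.2 + q.1) * pker a q.1
    exact (hZ.comp (continuous_snd.add continuous_fst)).mul (hker.comp continuous_fst)
  have q1 : IntervalIntegrable (fun u => ∫ t in (0 : ℝ)..T, Z (t + u) * pker a u) volume (-1) 1 :=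
    hcs.intervalIntegrable _ _
  have q2 : IntervalIntegrable (fun u => 2 * W * pker a u) volume (-1) 1 :=
    (continuous_const.mul hker).intervalIntegrable _ _
  have hfin := intervalIntegral.integral_mono_on (a := -1) (b := 1) (by norm_num) q1 q2 hin
  refine hfin.trans ?_
  rw [intervalIntegral.integral_const_mul, ← hW]
  have hm := (pker_mass ha).2
  calc 2 * W * ∫ u in (-1 : ℝ)..1, pker a u ≤ 2 * W * 1 :=
        mul_le_mul_of_nonneg_left hm (by positivity)
    _ = 2 * W := mul_one _

end M2

open M2 in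
/-- M2 -/
theorem t_M2 (h1 : S_TP) (_h2 : S_UP) (_h3 : S_PB) : S_M2 := by
  obtain ⟨A, C, hA, hC, h⟩ := h1
  refine ⟨2 * A, by positivity, fun k hk => ?_⟩
  obtain ⟨K0, hK0⟩ : ∃ K0, K0 = Real.exp (k * A * Real.log 3 + 2 * k * C) := ⟨_, rfl⟩
  have hK0p : 0 < K0 := by
    rw [hK0]
    exact Real.exp_pos _
  refine ⟨2 * K0, by positivity, fun a T ha ha4 hT => ?_⟩
  have hTp : 0 < T := by linarith
  have hZ : Continuous fun v => nz v ^ (2 * k) :=
    nz_cont.rpow_const fun _ => Or.inr (by positivity)
  have hZ0 : ∀ v, 0 ≤ nz v ^ (2 * k) := fun v => Real.rpow_nonneg (nz_nonneg v) _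
  have hker := pker_cont ha
  obtain ⟨P, hP⟩ : ∃ P, P = T ^ (2 * A * k * a) := ⟨_, rfl⟩
  have hPp : 0 < P := by
    rw [hP]
    positivity
  -- the pointwise bound
  have hpt : ∀ t ∈ Icc (0 : ℝ) T, Real.exp (2 * k * GG a t) ≤
      K0 * P * (2 + ∫ u in (-1 : ℝ)..1, nz (t + u) ^ (2 * k) * pker a u) := by
    intro t ht
    have g1 := h a ha ha4 t
    have hfc : Continuous fun u => 2 * k * Real.log (max (nz (t + u)) 1) := by
      refine continuous_const.mul (Continuous.log ?_ fun u => ?_)
      · exact (nz_cont.comp (continuous_const.add continuous_id)).max continuous_const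
      · have : (1 : ℝ) ≤ max (nz (t + u)) 1 := le_max_right _ _
        linarith
    have g2 := jensen ha hfc
    have g3 : ∫ u in (-1 : ℝ)..1, 2 * k * Real.log (max (nz (t + u)) 1) * pker a u =
        2 * k * ∫ u in (-1 : ℝ)..1, max (L 0 (t + u)) 0 * (a / Real.pi / (a ^ 2 + u ^ 2)) := by
      rw [← intervalIntegral.integral_const_mul]
      refine intervalIntegral.integral_congr fun u _ => ?_
      rw [max_log]
      unfold pker
      ring
    have g4 : ∫ u in (-1 : ℝ)..1, Real.exp (2 * k * Real.log (max (nz (t + u)) 1)) * pker a u ≤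
        1 + ∫ u in (-1 : ℝ)..1, nz (t + u) ^ (2 * k) * pker a u := by
      have g5 : ∫ u in (-1 : ℝ)..1, Real.exp (2 * k * Real.log (max (nz (t + u)) 1)) * pker a u ≤
          ∫ u in (-1 : ℝ)..1, (pker a u + nz (t + u) ^ (2 * k) * pker a u) := by
        refine intervalIntegral.integral_mono_on (by norm_num) ?_ ?_ fun u _ => ?_
        · exact ((Real.continuous_exp.comp hfc).mul hker).intervalIntegrable _ _
        · exact (hker.add ((hZ.comp (continuous_const.add continuous_id)).mul
            hker)).intervalIntegrable _ _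
        · have g6 := mul_le_mul_of_nonneg_right (exp_log (k := k) (t + u)) (pker_nonneg ha u)
          linarith
      refine g5.trans ?_
      have q3 : IntervalIntegrable (fun u => nz (t + u) ^ (2 * k) * pker a u) volume (-1) 1 :=
        ((hZ.comp (continuous_const.add continuous_id)).mul hker).intervalIntegrable _ _
      rw [intervalIntegral.integral_add (hker.intervalIntegrable _ _) q3]
      have := (pker_mass ha).2
      linarith
    have ht0 : |t| = t := abs_of_nonneg ht.1
    have g7 : Real.log (2 + |t|) ≤ Real.log 3 + Real.log T := by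
      rw [ht0, ← Real.log_mul (by norm_num) hTp.ne']
      apply Real.log_le_log (by linarith [ht.1])
      linarith [ht.2]
    have hl3 : 0 ≤ Real.log 3 := Real.log_nonneg (by norm_num)
    have g8 : 2 * k * GG a t ≤ (k * A * Real.log 3 + 2 * k * C) + Real.log T * (2 * A * k * a) +
        ∫ u in (-1 : ℝ)..1, 2 * k * Real.log (max (nz (t + u)) 1) * pker a u := by
      rw [g3]
      generalize (∫ u in (-1 : ℝ)..1, max (L 0 (t + u)) 0 * (a / Real.pi / (a ^ 2 + u ^ 2))) = J
        at g1
      have g9 : A * a * Real.log (2 + |t|) ≤ A * a * (Real.log 3 + Real.log T) :=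
        mul_le_mul_of_nonneg_left g7 (by positivity)
      have g10 : 2 * k * GG a t ≤ 2 * k * (A * a * (Real.log 3 + Real.log T) + C + J) :=
        mul_le_mul_of_nonneg_left (by linarith) (by positivity)
      have g11 : 2 * a * (k * A * Real.log 3) ≤ 1 * (k * A * Real.log 3) :=
        mul_le_mul_of_nonneg_right (by linarith) (by positivity)
      linarith
    have g12 := Real.exp_le_exp.2 g8
    refine g12.trans ?_
    rw [Real.exp_add, Real.exp_add, ← hK0, ← Real.rpow_def_of_pos hTp, ← hP]
    refine mul_le_mul_of_nonneg_left ?_ (by positivity)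
    linarith
  -- the right hand side
  have hRc : Continuous fun t => K0 * P *
      (2 + ∫ u in (-1 : ℝ)..1, nz (t + u) ^ (2 * k) * pker a u) := by
    refine continuous_const.mul (continuous_const.add ?_)
    refine intervalIntegral.continuous_parametric_intervalIntegral_of_continuous' ?_ (-1) 1
    show Continuous fun q : ℝ × ℝ => nz (q.1 + q.2) ^ (2 * k) * pker a q.2
    exact (hZ.comp (continuous_fst.add continuous_snd)).mul (hker.comp continuous_snd)
  have hcin : Continuous fun t => ∫ u in (-1 : ℝ)..1, nz (t + u) ^ (2 * k) * pker a u := by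
    refine intervalIntegral.continuous_parametric_intervalIntegral_of_continuous' ?_ (-1) 1
    show Continuous fun q : ℝ × ℝ => nz (q.1 + q.2) ^ (2 * k) * pker a q.2
    exact (hZ.comp (continuous_fst.add continuous_snd)).mul (hker.comp continuous_snd)
  have hW0 : 0 ≤ ∫ t in (0 : ℝ)..(2 * T), ‖riemannZeta ⟨1 / 2, t⟩‖ ^ (2 * k) :=
    intervalIntegral.integral_nonneg (by linarith) fun v _ => hZ0 v
  rw [← hP]
  by_cases hI : IntervalIntegrable (fun t => Real.exp (2 * k * GG a t)) volume 0 T
  · refine (intervalIntegral.integral_mono_on hTp.le hI (hRc.intervalIntegrable _ _) hpt).trans ?_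
    rw [intervalIntegral.integral_const_mul, intervalIntegral.integral_add
      (continuous_const.intervalIntegrable _ _) (hcin.intervalIntegrable _ _),
      intervalIntegral.integral_const, sub_zero, smul_eq_mul]
    have hd := double ha hk hT
    have e : 2 * K0 * P * (T + ∫ t in (0 : ℝ)..(2 * T), ‖riemannZeta ⟨1 / 2, t⟩‖ ^ (2 * k)) =
        K0 * P * (T * 2 + 2 * ∫ t in (0 : ℝ)..(2 * T), nz t ^ (2 * k)) := by
      unfold nz
      ring
    rw [e]
    refine mul_le_mul_of_nonneg_left ?_ (by positivity)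
    linarith
  · rw [intervalIntegral.integral_undef hI]
    positivity

end Pool.Agent.N799.LG
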