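import Pool.Agent.N799.LG.Def
import Pool.Agent.N27.GM_3
import Pool.Agent.N34.GM_2
import Pool.Agent.N79.GM_1

/-!
# Project LG, part MAJ (helper657): the Poisson majorant to the right of the critical line
-/

set_option autoImplicit false

namespace Pool.Agent.N799.LG

open Complex Filter Topology Set MeasureTheory
open Pool.Agent.N804.GM Pool.Agent.N27.GM3

namespace MAJ

theorem pj : S_PJ := Pool.Agent.N34.GM2.main Pool.Agent.N79.GM1.main

theorem ff_le' (t : ℝ) {z : ℂ} (hz : 0 ≤ z.re) :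
    ‖ff t z‖ ≤ Real.exp (Real.log (4 + 2 * |t|) * (1 + Real.log (1 + ‖z‖))) := by
  have ht := abs_nonneg t
  set s : ℂ := z + (1 / 2 + t * I) with hs
  have hsre : s.re = z.re + 1 / 2 := by simp [hs]
  have hs0 : (1 : ℝ) / 2 ≤ s.re := by rw [hsre]; linarith
  have hden : 0 < ‖s + 1‖ := norm_pos_iff.2 (den_ne hz)
  have h1 : ‖ff t z‖ ≤ 1 + 2 * ‖s - 1‖ := by
    have h2 : ‖ff t z‖ = ‖H s‖ / ‖s + 1‖ := by
      unfold ff
      rw [norm_div]
    rw [h2, div_le_iff₀ hden]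
    have h3 := H_le hs0
    have h4 := norm_le_den' (s := s) (by linarith)
    have h5 := norm_nonneg (s - 1)
    nlinarith [norm_nonneg s]
  have h6 : ‖s - 1‖ ≤ ‖z‖ + (1 / 2 + |t|) := by
    have h7 : s - 1 = z + (-(1 / 2) + t * I) := by rw [hs]; ring
    rw [h7]
    refine (norm_add_le _ _).trans (add_le_add le_rfl ((norm_add_le _ _).trans ?_))
    rw [norm_neg, norm_mul, Complex.norm_I, mul_one, Complex.norm_real, Real.norm_eq_abs]
    norm_num
  have hL : 1 ≤ Real.log (4 + 2 * |t|) := by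
    rw [Real.le_log_iff_exp_le (by linarith)]
    have := Real.exp_one_lt_d9
    linarith
  have hz1 : 0 ≤ Real.log (1 + ‖z‖) := Real.log_nonneg (by linarith [norm_nonneg z])
  calc ‖ff t z‖ ≤ (4 + 2 * |t|) * (1 + ‖z‖) := by nlinarith [norm_nonneg z]
    _ = Real.exp (Real.log (4 + 2 * |t|) + Real.log (1 + ‖z‖)) := by
        rw [Real.exp_add, Real.exp_log (by linarith), Real.exp_log (by linarith [norm_nonneg z])]
    _ ≤ _ := by
        apply Real.exp_le_exp.2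
        nlinarith

theorem mk_eq (x v : ℝ) : (⟨1 / 2 + x, v⟩ : ℂ) = (x : ℂ) + (1 / 2 + v * I) := by
  apply Complex.ext
  · simp [add_comm]
  · simp

theorem L_zero (v : ℝ) : L 0 v = Real.log ‖riemannZeta (1 / 2 + (v : ℂ) * I)‖ := by
  unfold L
  rw [mk_eq, Complex.ofReal_zero, zero_add]

theorem ff_real {t a : ℝ} (ha : (a : ℂ) + (1 / 2 + t * I) ≠ 1) : ff t (a : ℂ) =
    riemannZeta (a + (1 / 2 + t * I)) *
      ((a + (1 / 2 + t * I) - 1) / (a + (1 / 2 + t * I) + 1)) := by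
  unfold ff
  rw [H_of_ne ha]
  ring

/-- the integrand on the line -/
theorem int_one (t : ℝ) : Integrable fun y : ℝ =>
    Real.log ‖riemannZeta (1 / 2 + ((t + y : ℝ) : ℂ) * I)‖ / (1 + y ^ 2) := by
  have hv0 : ff t ((1 : ℝ) : ℂ) ≠ 0 := by
    have e2 : (((1 : ℝ) : ℂ) + (1 / 2 + t * I) : ℂ) ≠ 1 := by
      intro h
      have := congrArg Complex.re h
      norm_num at this
    rw [ff_real e2]
    refine mul_ne_zero (riemannZeta_ne_zero_of_one_lt_re ?_) (div_ne_zero (sub_ne_zero.2 e2) ?_)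
    · norm_num
    · exact den_ne (by norm_num)
  obtain ⟨hint, -⟩ := pj (ff t) (Real.log (4 + 2 * |t|)) 1 one_pos (fun z hz => ff_an t hz)
    (fun z hz => ff_le' t hz) hv0
  have hk : Integrable fun y : ℝ => (1 + y ^ 2)⁻¹ := integrable_inv_one_add_sq
  refine Integrable.mono' (g := fun y : ℝ =>
      ‖Real.log ‖ff t (y * I)‖ / (1 ^ 2 + y ^ 2)‖ + Real.log 3 * (1 + y ^ 2)⁻¹)
      (hint.norm.add (hk.const_mul _)) ?_ ?_
  · exact ((zeta_line_meas t).div (by fun_prop)).aestronglyMeasurable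
  · refine Filter.Eventually.of_forall fun y => ?_
    have h1 : (0 : ℝ) < 1 + y ^ 2 := by positivity
    have h2 := (log_line t y).2
    rw [Real.norm_eq_abs, abs_div, abs_of_pos h1, Real.norm_eq_abs, abs_div, one_pow,
      abs_of_pos h1, ← div_eq_mul_inv, ← add_div]
    exact div_le_div_of_nonneg_right h2 h1.le

theorem int_a (t : ℝ) {a : ℝ} (ha : 0 < a) (ha1 : a ≤ 1) : Integrable fun y : ℝ =>
    Real.log ‖riemannZeta (1 / 2 + ((t + y : ℝ) : ℂ) * I)‖ / (a ^ 2 + y ^ 2) := by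
  refine Integrable.mono' ((int_one t).norm.const_mul (1 / a ^ 2)) ?_ ?_
  · exact ((zeta_line_meas t).div (by fun_prop)).aestronglyMeasurable
  · refine Filter.Eventually.of_forall fun y => ?_
    have h1 : (0 : ℝ) < 1 + y ^ 2 := by positivity
    have h2 : (0 : ℝ) < a ^ 2 + y ^ 2 := by positivity
    have h3 : a ^ 2 ≤ 1 := by nlinarith
    set X : ℝ := |Real.log ‖riemannZeta (1 / 2 + ((t + y : ℝ) : ℂ) * I)‖| with hX
    have hX0 : 0 ≤ X := abs_nonneg _
    rw [Real.norm_eq_abs, abs_div, abs_of_pos h2, Real.norm_eq_abs, abs_div, abs_of_pos h1, ← hX,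
      div_mul_div_comm, one_mul]
    refine div_le_div_of_nonneg_left hX0 (by positivity) ?_
    nlinarith [sq_nonneg y]

theorem shift (t a : ℝ) : (fun u : ℝ => L 0 u / (a ^ 2 + (u - t) ^ 2)) =
    fun u => (fun y : ℝ => Real.log ‖riemannZeta (1 / 2 + ((t + y : ℝ) : ℂ) * I)‖ /
      (a ^ 2 + y ^ 2)) (u - t) := by
  funext u
  simp only [add_sub_cancel, L_zero]

theorem GG_eq (t a : ℝ) : GG a t = a / Real.pi * ∫ y : ℝ,
    Real.log ‖riemannZeta (1 / 2 + ((t + y : ℝ) : ℂ) * I)‖ / (a ^ 2 + y ^ 2) := by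
  unfold GG
  rw [shift]
  congr 1
  exact integral_sub_right_eq_self (fun y : ℝ =>
    Real.log ‖riemannZeta (1 / 2 + ((t + y : ℝ) : ℂ) * I)‖ / (a ^ 2 + y ^ 2)) t

theorem ratio_a {t a : ℝ} (ha : 0 < a) (ha1 : a ≤ 1 / 4) :
    1 / 7 ≤ ‖((a : ℂ) + (1 / 2 + t * I) - 1) / (a + (1 / 2 + t * I) + 1)‖ := by
  have h0 : ((a : ℂ) + (1 / 2 + t * I) + 1) ≠ 0 := den_ne (by simpa using ha.le)
  rw [norm_div, le_div_iff₀ (norm_pos_iff.2 h0), ← sq_le_sq₀ (by positivity) (norm_nonneg _),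
    mul_pow, Complex.sq_norm, Complex.sq_norm, Complex.normSq_apply, Complex.normSq_apply]
  simp
  nlinarith [mul_self_nonneg t]

end MAJ

open MAJ in
theorem t_MAJ : S_MAJ := by
  refine ⟨Real.log 7, Real.log_pos (by norm_num), fun a ha ha1 t => ?_⟩
  have hint := int_a t ha (by linarith : a ≤ 1)
  refine ⟨by rw [shift]; exact hint.comp_sub_right t, fun hz => ?_⟩
  rw [mk_eq] at hz
  have e2 : ((a : ℂ) + (1 / 2 + t * I)) ≠ 1 := by
    intro h
    have := congrArg Complex.re h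
    simp at this
    linarith
  have hr := ratio_a (t := t) ha ha1
  set q : ℂ := ((a : ℂ) + (1 / 2 + t * I) - 1) / (a + (1 / 2 + t * I) + 1) with hq
  have hq0 : 0 < ‖q‖ := by linarith
  have hf : ff t (a : ℂ) = riemannZeta (a + (1 / 2 + t * I)) * q := ff_real e2
  have hf0 : ff t (a : ℂ) ≠ 0 := by
    rw [hf]
    exact mul_ne_zero hz (norm_pos_iff.1 hq0)
  obtain ⟨h1, h2⟩ := pj (ff t) (Real.log (4 + 2 * |t|)) a ha (fun z hz => ff_an t hz)
    (fun z hz => ff_le' t hz) hf0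
  have h3 := h2 ∅ (by simp)
  rw [Finset.sum_empty, add_zero, hf, norm_mul, Real.log_mul (norm_pos_iff.2 hz).ne' hq0.ne'] at h3
  have h4 : -Real.log 7 ≤ Real.log ‖q‖ := by
    rw [← Real.log_inv]
    exact Real.log_le_log (by norm_num) (by rw [← one_div]; exact hr)
  have h5 : ∫ y : ℝ, Real.log ‖ff t (y * I)‖ / (a ^ 2 + y ^ 2) ≤
      ∫ y : ℝ, Real.log ‖riemannZeta (1 / 2 + ((t + y : ℝ) : ℂ) * I)‖ / (a ^ 2 + y ^ 2) := by
    refine integral_mono h1 hint fun y => ?_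
    have h6 : (0 : ℝ) < a ^ 2 + y ^ 2 := by positivity
    exact div_le_div_of_nonneg_right (log_line t y).1 h6.le
  have h7 : a / Real.pi * ∫ y : ℝ, Real.log ‖ff t (y * I)‖ / (a ^ 2 + y ^ 2) ≤ GG a t := by
    rw [GG_eq]
    exact mul_le_mul_of_nonneg_left h5 (by have := Real.pi_pos; positivity)
  have h8 : L a t = Real.log ‖riemannZeta (a + (1 / 2 + t * I))‖ := by
    unfold L
    rw [mk_eq]
  rw [h8]
  linarith

end Pool.Agent.N799.LG
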