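import Pool.Agent.N799.LG.Def
import Pool.Agent.H388LH.ZG

set_option autoImplicit false

/-! # Project LG: a linear bound for zeta on the critical line (S_PB) -/

namespace Pool.Agent.N799.LG

theorem t_PB : S_PB := by
  refine ⟨9, by norm_num, fun v => ?_⟩
  have h := Pool.Agent.H388LH.zeta_growth' (s := ⟨1 / 2, v⟩)
    (show (1 : ℝ) / 4 ≤ 1 / 2 by norm_num) (show (1 : ℝ) / 2 ≤ 3 / 4 by norm_num)
  exact h

end Pool.Agent.N799.LG
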