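import Pool.Agent.N799.LG.Def

/-! # Project LG, leaf PT (helper456): the pointwise bound of `log |ζ|` by smoothed geometric means -/

set_option autoImplicit false

namespace Pool.Agent.N799.LG

open Filter Topology Set MeasureTheory

theorem t_PT (h1 : S_CEN) (h2 : S_MAJ) (h3 : S_UP) (h4 : S_KER) : S_PT := by
  obtain ⟨C1, hC1, h1⟩ := h1
  obtain ⟨C2, hC2, h2⟩ := h2
  obtain ⟨-, hmeas, C3, hC3, h3⟩ := h3
  refine ⟨C1 + C2, by positivity, fun a ha ha4 t => ?_⟩
  obtain ⟨k1, k2, k3, k4, -, -, k5, -⟩ := h4 a ha ha4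
  have hint : Integrable (fun u : ℝ => max (GG a (t + u)) 0 * KK a u) := by
    have hg : Integrable (fun u : ℝ => C3 * (1 + Real.log (1 + |t|)) * KK a u +
        C3 * (KK a u * Real.log (1 + |u|))) := (k2.const_mul _).add (k5.const_mul _)
    refine hg.mono' ?_ (Eventually.of_forall fun u => ?_)
    · have m1 : Measurable (fun u : ℝ => GG a (t + u)) := (hmeas a).comp (measurable_const.add measurable_id)
      exact ((m1.max measurable_const).mul k1.measurable).aestronglyMeasurable
    · have e1 : 0 ≤ max (GG a (t + u)) 0 := le_max_right _ _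
      rw [Real.norm_eq_abs, abs_of_nonneg (mul_nonneg e1 (k4 u).le)]
      have e2 : Real.log (1 + |t + u|) ≤ Real.log (1 + |t|) + Real.log (1 + |u|) := by
        rw [← Real.log_mul (by positivity) (by positivity)]
        apply Real.log_le_log (by positivity)
        have := abs_add_le t u
        nlinarith [abs_nonneg t, abs_nonneg u, mul_nonneg (abs_nonneg t) (abs_nonneg u)]
      have e3 : 0 ≤ Real.log (1 + |t + u|) := Real.log_nonneg (by linarith [abs_nonneg (t + u)])
      have e4 : max (GG a (t + u)) 0 ≤ C3 * (1 + Real.log (1 + |t + u|)) :=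
        max_le (h3 a ha ha4 (t + u)) (by positivity)
      have e5 : max (GG a (t + u)) 0 ≤ C3 * (1 + Real.log (1 + |t|)) + C3 * Real.log (1 + |u|) := by
        refine e4.trans ?_
        have := mul_le_mul_of_nonneg_left e2 hC3.le
        linarith
      calc max (GG a (t + u)) 0 * KK a u ≤ (C3 * (1 + Real.log (1 + |t|)) + C3 * Real.log (1 + |u|)) * KK a u :=
            mul_le_mul_of_nonneg_right e5 (k4 u).le
        _ = _ := by ring
  refine ⟨hint, ?_⟩
  have hlog : 0 ≤ Real.log (2 + |t|) := Real.log_nonneg (by linarith [abs_nonneg t])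
  have hin0 : 0 ≤ ∫ u : ℝ, max (GG a (t + u)) 0 * KK a u :=
    integral_nonneg fun u => mul_nonneg (le_max_right _ _) (k4 u).le
  have hhalf : (⟨1 / 2 + 0, t⟩ : ℂ) = ⟨1 / 2, t⟩ := by
    rw [add_zero]
  by_cases hz : riemannZeta ⟨1 / 2, t⟩ = 0
  · have e0 : L 0 t = 0 := by
      unfold L
      rw [hhalf, hz, norm_zero, Real.log_zero]
    rw [e0]
    have : 0 ≤ a / 2 * Real.log (2 + |t|) := by positivity
    linarith
  · obtain ⟨i1, i2⟩ := h1 a ha ha4 t hz
    have hpt : ∀ u : ℝ, L a (t + u) ≤ C2 + max (GG a (t + u)) 0 := by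
      intro u
      by_cases hz' : riemannZeta ⟨1 / 2 + a, t + u⟩ = 0
      · have e0 : L a (t + u) = 0 := by
          unfold L
          rw [hz', norm_zero, Real.log_zero]
        rw [e0]
        have := le_max_right (GG a (t + u)) 0
        linarith
      · have := (h2 a ha ha4 (t + u)).2 hz'
        have h' := le_max_left (GG a (t + u)) 0
        linarith
    have hcomp : ∫ u : ℝ, L a (t + u) * KK a u ≤ C2 + ∫ u : ℝ, max (GG a (t + u)) 0 * KK a u := by
      calc ∫ u : ℝ, L a (t + u) * KK a u ≤ ∫ u : ℝ, (C2 * KK a u + max (GG a (t + u)) 0 * KK a u) := by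
            apply integral_mono i1 ((k2.const_mul C2).add hint)
            intro u
            have := mul_le_mul_of_nonneg_right (hpt u) (k4 u).le
            show L a (t + u) * KK a u ≤ C2 * KK a u + max (GG a (t + u)) 0 * KK a u
            linarith
        _ = _ := by
            rw [integral_add (k2.const_mul C2) hint, integral_const_mul, k3, mul_one]
    linarith

end Pool.Agent.N799.LG
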