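import Pool.Agent.N799.LG.Def

set_option autoImplicit false

/-! # Project LG, leaf TP (helper169): the means are almost local -/

namespace Pool.Agent.N799.LG

open Filter Topology Set MeasureTheory

theorem tp_L_le {C : ℝ} (hC : ∀ v : ℝ, ‖riemannZeta ⟨1 / 2, v⟩‖ ≤ C * (1 + |v|)) (hC0 : 0 < C)
    (t u : ℝ) : L 0 (t + u) ≤ |Real.log C| + Real.log (2 + |t|) + Real.log (1 + |u|) := by
  have ht : 0 ≤ Real.log (2 + |t|) := Real.log_nonneg (by linarith [abs_nonneg t])
  have hu : 0 ≤ Real.log (1 + |u|) := Real.log_nonneg (by linarith [abs_nonneg u])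
  unfold L
  have h0 : (1 / 2 + (0 : ℝ)) = 1 / 2 := by norm_num
  rw [h0]
  by_cases hz : ‖riemannZeta ⟨1 / 2, t + u⟩‖ = 0
  · rw [hz, Real.log_zero]
    have := abs_nonneg (Real.log C)
    linarith
  · have hpos : 0 < ‖riemannZeta ⟨1 / 2, t + u⟩‖ := lt_of_le_of_ne (norm_nonneg _) (Ne.symm hz)
    have h1 : Real.log ‖riemannZeta ⟨1 / 2, t + u⟩‖ ≤ Real.log (C * ((2 + |t|) * (1 + |u|))) := by
      apply Real.log_le_log hpos
      refine (hC (t + u)).trans ?_
      apply mul_le_mul_of_nonneg_left _ hC0.le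
      have h2 := abs_add_le t u
      nlinarith [abs_nonneg t, abs_nonneg u, mul_nonneg (abs_nonneg t) (abs_nonneg u)]
    have h3 : (2 + |t|) ≠ 0 := by have := abs_nonneg t; positivity
    have h4 : (1 + |u|) ≠ 0 := by have := abs_nonneg u; positivity
    rw [Real.log_mul hC0.ne' (mul_ne_zero h3 h4), Real.log_mul h3 h4] at h1
    have := le_abs_self (Real.log C)
    linarith

theorem tp_log_div (u : ℝ) : Real.log (1 + |u|) * (2 / (1 + u ^ 2)) ≤ 8 * (1 + |u|) ^ (-(3 / 2) : ℝ) := by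
  have hu := abs_nonneg u
  have hp : 0 < 1 + |u| := by positivity
  have h1 : Real.log (1 + |u|) ≤ (1 + |u|) ^ (1 / 2 : ℝ) / (1 / 2) :=
    Real.log_le_rpow_div hp.le (by norm_num)
  have h2 : 2 / (1 + u ^ 2) ≤ 4 * (1 + |u|) ^ (-2 : ℝ) := by
    rw [Real.rpow_neg hp.le, Real.rpow_two, ← div_eq_mul_inv, div_le_div_iff₀ (by positivity) (by positivity)]
    nlinarith [sq_abs u, sq_nonneg (1 - |u|)]
  have h3 : (0 : ℝ) ≤ 2 / (1 + u ^ 2) := by positivity
  have h4 : (0 : ℝ) ≤ (1 + |u|) ^ (1 / 2 : ℝ) / (1 / 2) := by positivity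
  calc Real.log (1 + |u|) * (2 / (1 + u ^ 2))
      ≤ ((1 + |u|) ^ (1 / 2 : ℝ) / (1 / 2)) * (4 * (1 + |u|) ^ (-2 : ℝ)) :=
        mul_le_mul h1 h2 h3 h4
    _ = 8 * ((1 + |u|) ^ (1 / 2 : ℝ) * (1 + |u|) ^ (-2 : ℝ)) := by ring
    _ = 8 * (1 + |u|) ^ (-(3 / 2) : ℝ) := by
        rw [← Real.rpow_add hp]; norm_num

theorem t_TP (h1 : S_PB) (h2 : S_MAJ) : S_TP := by
  obtain ⟨C, hC0, hC⟩ := h1
  obtain ⟨C', -, hM⟩ := h2
  set J : ℝ := ∫ u : ℝ, (1 + ‖u‖) ^ (-(3 / 2) : ℝ) with hJdef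
  have hJint : Integrable (fun u : ℝ => (1 + ‖u‖) ^ (-(3 / 2) : ℝ)) := by
    apply integrable_one_add_norm
    simp
    norm_num
  have hJ0 : 0 ≤ J := by
    apply integral_nonneg
    intro u
    have := norm_nonneg u
    positivity
  refine ⟨2, |Real.log C| + J + 1, by norm_num, by have := abs_nonneg (Real.log C); positivity, ?_⟩
  intro a ha ha4 t
  have hπ := Real.pi_pos
  have hπ3 := Real.pi_gt_three
  obtain ⟨hint, -⟩ := hM a ha ha4 t
  set f : ℝ → ℝ := fun u => L 0 (t + u) * (a / Real.pi / (a ^ 2 + u ^ 2)) with hf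
  -- translation
  have hshift : (fun u : ℝ => L 0 (t + u) / (a ^ 2 + u ^ 2)) =
      fun u => (fun v : ℝ => L 0 v / (a ^ 2 + (v - t) ^ 2)) (t + u) := by
    funext u
    simp
  have hint' : Integrable (fun u : ℝ => L 0 (t + u) / (a ^ 2 + u ^ 2)) := by
    rw [hshift]
    exact hint.comp_add_left t
  have hfeq : f = fun u => a / Real.pi * (L 0 (t + u) / (a ^ 2 + u ^ 2)) := by
    funext u
    simp only [hf]
    ring
  have hfint : Integrable f := by
    rw [hfeq]
    exact hint'.const_mul _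
  have hGG : GG a t = ∫ u, f u := by
    unfold GG
    rw [hfeq, integral_const_mul, hshift]
    congr 1
    exact (integral_add_left_eq_self (fun v : ℝ => L 0 v / (a ^ 2 + (v - t) ^ 2)) t).symm
  -- splitting
  have hsplit : ∫ u, f u = (∫ u in Ioc (-1 : ℝ) 1, f u) + ∫ u in (Ioc (-1 : ℝ) 1)ᶜ, f u :=
    (integral_add_compl measurableSet_Ioc hfint).symm
  have hw : ∀ u : ℝ, 0 ≤ a / Real.pi / (a ^ 2 + u ^ 2) := fun u => by positivity
  have hmaxeq : (fun u : ℝ => max (L 0 (t + u)) 0 * (a / Real.pi / (a ^ 2 + u ^ 2))) =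
      fun u => max (f u) 0 := by
    funext u
    simp only [hf]
    rw [max_mul_of_nonneg _ _ (hw u), zero_mul]
  have hmaxint : Integrable (fun u : ℝ => max (L 0 (t + u)) 0 * (a / Real.pi / (a ^ 2 + u ^ 2))) := by
    rw [hmaxeq]
    exact hfint.pos_part
  have hin : (∫ u in Ioc (-1 : ℝ) 1, f u) ≤
      ∫ u in (-1 : ℝ)..1, max (L 0 (t + u)) 0 * (a / Real.pi / (a ^ 2 + u ^ 2)) := by
    rw [intervalIntegral.integral_of_le (by norm_num)]
    apply integral_mono hfint.integrableOn hmaxint.integrableOn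
    intro u
    simp only [hf]
    exact mul_le_mul_of_nonneg_right (le_max_left _ _) (hw u)
  -- the outer part
  set K : ℝ := |Real.log C| + Real.log (2 + |t|) with hK
  have ht : 0 ≤ Real.log (2 + |t|) := Real.log_nonneg (by linarith [abs_nonneg t])
  have hK0 : 0 ≤ K := by have := abs_nonneg (Real.log C); positivity
  set g : ℝ → ℝ := fun u => a / Real.pi * (K * 2 * (1 + u ^ 2)⁻¹ + 8 * (1 + ‖u‖) ^ (-(3 / 2) : ℝ)) with hg
  have hgint : Integrable g := by
    apply Integrable.const_mul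
    exact (integrable_inv_one_add_sq.const_mul _).add (hJint.const_mul _)
  have hg0 : ∀ u, 0 ≤ g u := by
    intro u
    have := norm_nonneg u
    simp only [hg]
    positivity
  have hgval : ∫ u, g u = a / Real.pi * (K * 2 * Real.pi + 8 * J) := by
    simp only [hg]
    rw [integral_const_mul, integral_add (integrable_inv_one_add_sq.const_mul _) (hJint.const_mul _),
      integral_const_mul, integral_const_mul, integral_univ_inv_one_add_sq]
  have hfg : ∀ u ∈ (Ioc (-1 : ℝ) 1)ᶜ, f u ≤ g u := by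
    intro u hu
    have hu1 : 1 ≤ u ^ 2 := by
      simp only [mem_compl_iff, mem_Ioc, not_and_or, not_lt, not_le] at hu
      rcases hu with hu | hu <;> nlinarith
    have hL := tp_L_le hC hC0 t u
    have hlu : 0 ≤ Real.log (1 + |u|) := Real.log_nonneg (by linarith [abs_nonneg u])
    have hw2 : 1 / (a ^ 2 + u ^ 2) ≤ 2 / (1 + u ^ 2) := by
      rw [div_le_div_iff₀ (by positivity) (by positivity)]
      nlinarith [sq_nonneg a]
    have hld := tp_log_div u
    have e1 : f u = a / Real.pi * (L 0 (t + u) * (1 / (a ^ 2 + u ^ 2))) := by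
      simp only [hf]; ring
    rw [e1]
    simp only [hg]
    apply mul_le_mul_of_nonneg_left _ (by positivity)
    have hn : ‖u‖ = |u| := Real.norm_eq_abs u
    rw [hn]
    calc L 0 (t + u) * (1 / (a ^ 2 + u ^ 2)) ≤ (K + Real.log (1 + |u|)) * (1 / (a ^ 2 + u ^ 2)) :=
          mul_le_mul_of_nonneg_right (by rw [hK]; linarith) (by positivity)
      _ ≤ (K + Real.log (1 + |u|)) * (2 / (1 + u ^ 2)) :=
          mul_le_mul_of_nonneg_left hw2 (by positivity)
      _ = K * 2 * (1 + u ^ 2)⁻¹ + Real.log (1 + |u|) * (2 / (1 + u ^ 2)) := by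
          rw [div_eq_mul_inv]; ring
      _ ≤ K * 2 * (1 + u ^ 2)⁻¹ + 8 * (1 + |u|) ^ (-(3 / 2) : ℝ) := by linarith
  have hout : (∫ u in (Ioc (-1 : ℝ) 1)ᶜ, f u) ≤ ∫ u, g u := by
    calc (∫ u in (Ioc (-1 : ℝ) 1)ᶜ, f u) ≤ ∫ u in (Ioc (-1 : ℝ) 1)ᶜ, g u :=
          setIntegral_mono_on hfint.integrableOn hgint.integrableOn measurableSet_Ioc.compl hfg
      _ ≤ ∫ u, g u := setIntegral_le_integral hgint (Eventually.of_forall hg0)
  have hfin : a / Real.pi * (K * 2 * Real.pi + 8 * J) ≤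
      2 * a * Real.log (2 + |t|) + (|Real.log C| + J + 1) := by
    have e2 : a / Real.pi * (K * 2 * Real.pi + 8 * J) = 2 * a * K + 8 * (a / Real.pi) * J := by
      field_simp
    rw [e2]
    have h8 : 8 * (a / Real.pi) ≤ 1 := by
      rw [mul_div_assoc', div_le_one hπ]
      linarith
    have h9 : 8 * (a / Real.pi) * J ≤ 1 * J := mul_le_mul_of_nonneg_right h8 hJ0
    have h10 : 2 * a * K = 2 * a * Real.log (2 + |t|) + 2 * a * |Real.log C| := by rw [hK]; ring
    have h11 : 2 * a * |Real.log C| ≤ |Real.log C| := by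
      have := abs_nonneg (Real.log C)
      nlinarith
    linarith
  rw [hGG, hsplit]
  rw [hgval] at hout
  linarith

end Pool.Agent.N799.LG
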