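import Mathlib
import Pool.Agent.N799.LG.Def

set_option autoImplicit false

/-! # Project LG (helper799), leaf UP (helper341) -/

namespace Pool.Agent.N799.LG

open Filter Topology Set MeasureTheory

theorem up_L_even (u : ℝ) : L 0 (-u) = L 0 u := by
  unfold L
  have e : (⟨1 / 2 + 0, -u⟩ : ℂ) = (starRingEnd ℂ) ⟨1 / 2 + 0, u⟩ := by
    apply Complex.ext
    · rw [Complex.conj_re]
    · rw [Complex.conj_im]
  rw [e, riemannZeta_conj, RCLike.norm_conj]

theorem up_L_meas : Measurable (L 0) := by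
  unfold L
  have hc : Continuous (fun v : ℝ => riemannZeta (⟨1 / 2 + 0, v⟩ : ℂ)) := by
    rw [continuous_iff_continuousAt]
    intro v
    have h1 : (⟨1 / 2 + 0, v⟩ : ℂ) ≠ 1 := by
      intro h
      have := congrArg Complex.re h
      simp only [Complex.one_re] at this
      norm_num at this
    have h2 := (differentiableAt_riemannZeta h1).continuousAt
    have h3 : Continuous (fun v : ℝ => (⟨1 / 2 + 0, v⟩ : ℂ)) := by
      have e : (fun v : ℝ => (⟨1 / 2 + 0, v⟩ : ℂ)) = fun v : ℝ =>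
          ((1 / 2 + 0 : ℝ) : ℂ) + (v : ℂ) * Complex.I := by
        funext v
        apply Complex.ext
        · simp
        · simp
      rw [e]
      fun_prop
    exact ContinuousAt.comp (f := fun v : ℝ => (⟨1 / 2 + 0, v⟩ : ℂ)) h2 h3.continuousAt
  exact Real.measurable_log.comp hc.norm.measurable

theorem up_even (a t : ℝ) : GG a (-t) = GG a t := by
  unfold GG
  congr 1
  rw [← integral_neg_eq_self]
  apply integral_congr_ae
  refine Filter.Eventually.of_forall ?_
  intro u
  simp only []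
  rw [up_L_even]
  congr 2
  ring

theorem up_meas (a : ℝ) : Measurable (GG a) := by
  unfold GG
  apply Measurable.const_mul
  have hm : Measurable (fun p : ℝ × ℝ => L 0 p.2 / (a ^ 2 + (p.2 - p.1) ^ 2)) := by
    have h1 : Measurable (fun p : ℝ × ℝ => L 0 p.2) := up_L_meas.comp measurable_snd
    have h2 : Measurable (fun p : ℝ × ℝ => a ^ 2 + (p.2 - p.1) ^ 2) := by fun_prop
    exact h1.div h2
  exact (hm.stronglyMeasurable.integral_prod_right (ν := volume)).measurable

/-- the absolute constant -/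
noncomputable def upK : ℝ := ∫ x : ℝ, Real.log (1 + |x|) / (1 + x ^ 2)

theorem up_int : Integrable (fun x : ℝ => Real.log (1 + |x|) / (1 + x ^ 2)) := by
  have h0 : Integrable (fun x : ℝ => 4 * (1 + ‖x‖) ^ (-(3 / 2 : ℝ))) := by
    apply Integrable.const_mul
    apply integrable_one_add_norm
    simp
    norm_num
  refine h0.mono' ?_ ?_
  · apply Measurable.aestronglyMeasurable
    have h1 : Measurable (fun x : ℝ => Real.log (1 + |x|)) :=
      Real.measurable_log.comp (by fun_prop)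
    exact h1.div (by fun_prop)
  · refine Filter.Eventually.of_forall ?_
    intro x
    have hx : 0 ≤ |x| := abs_nonneg x
    have h1 : 0 ≤ Real.log (1 + |x|) := Real.log_nonneg (by linarith)
    have h2 : (0 : ℝ) < 1 + x ^ 2 := by positivity
    rw [Real.norm_eq_abs, abs_of_nonneg (div_nonneg h1 h2.le), Real.norm_eq_abs,
      div_le_iff₀ h2]
    have h3 : Real.log (1 + |x|) ≤ (1 + |x|) ^ (1 / 2 : ℝ) / (1 / 2) :=
      Real.log_le_rpow_div (by linarith) (by norm_num)
    have h4 : (1 + |x|) ^ 2 ≤ 2 * (1 + x ^ 2) := by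
      have := sq_abs x
      nlinarith [sq_nonneg (1 - |x|)]
    have hp : (0 : ℝ) < 1 + |x| := by linarith
    have h5 : (1 + |x|) ^ (-(3 / 2 : ℝ)) * (1 + |x|) ^ 2 = (1 + |x|) ^ (1 / 2 : ℝ) := by
      rw [← Real.rpow_natCast (1 + |x|) 2, ← Real.rpow_add hp]
      norm_num
    have h6 : (0 : ℝ) < (1 + |x|) ^ (-(3 / 2 : ℝ)) := Real.rpow_pos_of_pos hp _
    calc Real.log (1 + |x|) ≤ 2 * (1 + |x|) ^ (1 / 2 : ℝ) := by linarith
      _ = 2 * ((1 + |x|) ^ (-(3 / 2 : ℝ)) * (1 + |x|) ^ 2) := by rw [h5]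
      _ ≤ 2 * ((1 + |x|) ^ (-(3 / 2 : ℝ)) * (2 * (1 + x ^ 2))) := by
          have := mul_le_mul_of_nonneg_left h4 h6.le
          linarith
      _ = 4 * (1 + |x|) ^ (-(3 / 2 : ℝ)) * (1 + x ^ 2) := by ring

theorem upK_nonneg : 0 ≤ upK := by
  unfold upK
  apply integral_nonneg
  intro x
  have hx : 0 ≤ |x| := abs_nonneg x
  have h1 : 0 ≤ Real.log (1 + |x|) := Real.log_nonneg (by linarith)
  have h2 : (0 : ℝ) < 1 + x ^ 2 := by positivity
  exact div_nonneg h1 h2.le

/-- scaled form of the mean -/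
theorem up_scale (a t : ℝ) (ha : 0 < a) :
    GG a t = 1 / Real.pi * ∫ x : ℝ, L 0 (t + a * x) / (1 + x ^ 2) := by
  unfold GG
  have h1 : ∫ u : ℝ, L 0 u / (a ^ 2 + (u - t) ^ 2) =
      ∫ u : ℝ, L 0 (t + u) / (a ^ 2 + u ^ 2) := by
    rw [← integral_add_left_eq_self (fun u : ℝ => L 0 u / (a ^ 2 + (u - t) ^ 2)) t]
    apply integral_congr_ae
    refine Filter.Eventually.of_forall ?_
    intro u
    simp only []
    congr 2
    ring
  have h2 : ∫ x : ℝ, L 0 (t + a * x) / (a ^ 2 + (a * x) ^ 2) =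
      |a⁻¹| • ∫ u : ℝ, L 0 (t + u) / (a ^ 2 + u ^ 2) :=
    Measure.integral_comp_mul_left (fun u : ℝ => L 0 (t + u) / (a ^ 2 + u ^ 2)) a
  have h3 : ∫ x : ℝ, L 0 (t + a * x) / (a ^ 2 + (a * x) ^ 2) =
      (a ^ 2)⁻¹ * ∫ x : ℝ, L 0 (t + a * x) / (1 + x ^ 2) := by
    rw [← integral_const_mul]
    apply integral_congr_ae
    refine Filter.Eventually.of_forall ?_
    intro x
    simp only []
    have hp : (0 : ℝ) < 1 + x ^ 2 := by positivity
    have e : a ^ 2 + (a * x) ^ 2 = a ^ 2 * (1 + x ^ 2) := by ring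
    rw [e]
    field_simp
  rw [h1]
  rw [h3, abs_of_pos (inv_pos.mpr ha), smul_eq_mul] at h2
  have hpi := Real.pi_pos
  have h4 : ∫ u : ℝ, L 0 (t + u) / (a ^ 2 + u ^ 2) =
      a * ((a ^ 2)⁻¹ * ∫ x : ℝ, L 0 (t + a * x) / (1 + x ^ 2)) := by
    rw [h2]
    field_simp
  rw [h4]
  field_simp

theorem t_UP (h1 : S_PB) : S_UP := by
  refine ⟨up_even, up_meas, ?_⟩
  obtain ⟨C0, hC0, hb⟩ := h1
  set C := max C0 1 with hC
  have hC1 : 1 ≤ C := le_max_right _ _
  have hlogC : 0 ≤ Real.log C := Real.log_nonneg hC1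
  have hL : ∀ v : ℝ, L 0 v ≤ Real.log C + Real.log (1 + |v|) := by
    intro v
    have hv : 0 ≤ |v| := abs_nonneg v
    have hl : 0 ≤ Real.log (1 + |v|) := Real.log_nonneg (by linarith)
    unfold L
    by_cases hz : ‖riemannZeta ⟨1 / 2 + 0, v⟩‖ = 0
    · rw [hz, Real.log_zero]
      linarith
    · have hpos : 0 < ‖riemannZeta ⟨1 / 2 + 0, v⟩‖ := lt_of_le_of_ne (norm_nonneg _) (Ne.symm hz)
      rw [← Real.log_mul (by linarith) (by linarith)]
      apply Real.log_le_log hpos
      have h2 := hb v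
      have e : (⟨1 / 2 + 0, v⟩ : ℂ) = ⟨1 / 2, v⟩ := by rw [add_zero]
      rw [e]
      refine h2.trans ?_
      exact mul_le_mul_of_nonneg_right (le_max_left _ _) (by linarith)
  have hpi := Real.pi_pos
  refine ⟨Real.log C + upK / Real.pi + 1, by
    have := div_nonneg upK_nonneg hpi.le
    linarith, ?_⟩
  intro a ha ha4 t
  have hK := div_nonneg upK_nonneg hpi.le
  have ht : 0 ≤ Real.log (1 + |t|) := Real.log_nonneg (by linarith [abs_nonneg t])
  rw [up_scale a t ha]
  have hfin : 1 / Real.pi * ∫ x : ℝ, L 0 (t + a * x) / (1 + x ^ 2) ≤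
      Real.log C + Real.log (1 + |t|) + upK / Real.pi := by
    by_cases hi : Integrable (fun x : ℝ => L 0 (t + a * x) / (1 + x ^ 2))
    · have hi1 : Integrable (fun x : ℝ => (Real.log C + Real.log (1 + |t|)) * (1 + x ^ 2)⁻¹) :=
        integrable_inv_one_add_sq.const_mul _
      have hi2 := up_int
      have hle : ∫ x : ℝ, L 0 (t + a * x) / (1 + x ^ 2) ≤
          ∫ x : ℝ, ((Real.log C + Real.log (1 + |t|)) * (1 + x ^ 2)⁻¹ +
            Real.log (1 + |x|) / (1 + x ^ 2)) := by
        apply integral_mono hi (hi1.add hi2)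
        intro x
        simp only []
        have hp : (0 : ℝ) < 1 + x ^ 2 := by positivity
        have hx : 0 ≤ |x| := abs_nonneg x
        have hta : 0 ≤ |t| := abs_nonneg t
        have h3 := hL (t + a * x)
        have h4 : Real.log (1 + |t + a * x|) ≤ Real.log (1 + |t|) + Real.log (1 + |x|) := by
          rw [← Real.log_mul (by linarith) (by linarith)]
          apply Real.log_le_log (by positivity)
          have h5 : |t + a * x| ≤ |t| + |x| := by
            refine (abs_add_le t (a * x)).trans ?_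
            rw [abs_mul, abs_of_pos ha]
            nlinarith
          nlinarith [mul_nonneg hta hx]
        have h6 : L 0 (t + a * x) ≤ Real.log C + Real.log (1 + |t|) + Real.log (1 + |x|) := by
          linarith
        change L 0 (t + a * x) / (1 + x ^ 2) ≤ (Real.log C + Real.log (1 + |t|)) * (1 + x ^ 2)⁻¹ +
          Real.log (1 + |x|) / (1 + x ^ 2)
        rw [div_eq_mul_inv, div_eq_mul_inv, ← add_mul]
        exact mul_le_mul_of_nonneg_right h6 (inv_nonneg.mpr hp.le)
      rw [integral_add hi1 hi2, integral_const_mul, integral_univ_inv_one_add_sq] at hle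
      have h7 : 1 / Real.pi * ∫ x : ℝ, L 0 (t + a * x) / (1 + x ^ 2) ≤
          1 / Real.pi * ((Real.log C + Real.log (1 + |t|)) * Real.pi + upK) :=
        mul_le_mul_of_nonneg_left hle (by positivity)
      refine h7.trans (le_of_eq ?_)
      field_simp
    · rw [integral_undef hi, mul_zero]
      linarith
  refine hfin.trans ?_
  nlinarith [mul_nonneg hlogC ht, mul_nonneg hK ht]

end Pool.Agent.N799.LG
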